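import Mathlib
import Pool.Agent.Lib.P4a7640N.Final
import Pool.Agent.Lib.P4a7640Ces.Sqf

/-!
# Robust Chowla in natural density: definitions
-/

open MeasureTheory ProbabilityTheory Filter Topology

namespace Pool.Agent.Lib.P4a7640N2

open Pool.Agent.Lib.P4a7640 Pool.Agent.Lib.P4a7640N Pool.Agent.Lib.P4a7640Ces

/-- the scales -/
noncomputable def NC (k : ℕ) : ℕ := ⌈Real.exp (Real.sqrt k)⌉₊

/-- the twice iterated logarithm -/
noncomputable def l2 (N : ℕ) : ℝ := Real.log (Real.log N)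

/-- the criterion: at every large scale `N` there is a threshold `T ≥ log log N` above which
the signs `x` have large variance while `y` hardly differs from `x` -/
def CritC (τ : ℕ → ℝ) (y x : SS) : Prop :=
  ∀ V : ℝ, ∀ δ : ℝ, 0 < δ → ∀ᶠ N : ℕ in atTop, ∃ T : ℕ,
    l2 N ≤ T ∧ V ≤ MS τ T N ∧ ES y x T N ≤ δ

/-- the deviation event for the weight `u`, the threshold `T` and the pattern `D` -/
def devC (θ u : ℕ → ℝ) (H : Finset ℕ) (N hm : ℕ) (A η : ℝ) (T : ℕ) (D : Finset ℕ) : Set SS :=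
  {x | η ≤ |FC (fun n => u n * prodSeq (rnd (sD D)) H n) H N x -
    AVL θ (PL hm N (A * T)).toList (FC (fun n => u n * prodSeq (rnd (sD D)) H n) H N) x|}

/-- the union of the deviation events over all thresholds `T₀ ≤ T ≤ M` and all patterns -/
def devUC (θ u : ℕ → ℝ) (H : Finset ℕ) (N hm : ℕ) (A η : ℝ) (T₀ M : ℕ) : Set SS :=
  ⋃ T ∈ Finset.Icc T₀ M, ⋃ D ∈ (Finset.Icc 1 T).powerset, devC θ u H N hm A η T D

/-- the exceptional event at stage `k` -/
def devKC (θ u : ℕ → ℝ) (H : Finset ℕ) (η : ℝ) (k : ℕ) : Set SS :=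
  devUC θ u H (NC k) (H.sup id) (AK H.card η) η ⌈2 * l2 (NC k)⌉₊ (2 * NC k)

end Pool.Agent.Lib.P4a7640N2
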