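import Mathlib
import Pool.Agent.Lib.P4a7640N2.Par

/-!
# Robust Chowla in natural density: concentration

Twin of the logarithmic version: the natural average `FC` changes by at most `4 |H| / p` in the
coordinate `p`, so the bounded differences inequality over the primes above `y` gives an exceptional
probability at most `2 exp (-ε ^ 2 y / (64 |H| ^ 2))`, and the union over all thresholds and all
patterns below the threshold is summable.
-/

open MeasureTheory ProbabilityTheory Filter Topology
open scoped ENNReal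

namespace Pool.Agent.Lib.P4a7640N2

open Pool.Agent.Lib.P4a7640 Pool.Agent.Lib.P4a7640N Pool.Agent.Lib.P4a7640Ces

lemma FC_eq (w : ℕ → ℝ) (H : Finset ℕ) (N : ℕ) (x : SS) :
    FC w H N x = ∑ n ∈ Finset.Icc 1 N, (w n / N) * chiT (oddT (MM H n)) x := by
  unfold FC
  rw [Finset.sum_div]
  refine Finset.sum_congr rfl fun n hn => ?_
  rw [Finset.mem_Icc] at hn
  have h1 : ∏ h ∈ H, sg (rnd x (n + h)) = chiT (oddT (MM H n)) x := by
    rw [← sg_rnd, MM, rnd_prod x H (fun h => n + h) (fun h _ => by omega), sg_prod]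
  rw [h1]
  ring

lemma measurable_FC (w : ℕ → ℝ) (H : Finset ℕ) (N : ℕ) : Measurable (FC w H N) := by
  have : FC w H N = fun x => ∑ n ∈ Finset.Icc 1 N, (w n / N) *
      chiT (oddT (MM H n)) x := funext (FC_eq w H N)
  rw [this]
  exact Finset.measurable_sum _ fun n _ => (measurable_chiT _).const_mul _

lemma FC_bound {w : ℕ → ℝ} (hw : ∀ n, |w n| ≤ 1) (H : Finset ℕ) {N : ℕ} (hN : 1 ≤ N) (x : SS) :
    |FC w H N x| ≤ 1 := by
  have hN0 : (0:ℝ) < N := by exact_mod_cast hN
  rw [FC_eq]
  calc |∑ n ∈ Finset.Icc 1 N, (w n / N) * chiT (oddT (MM H n)) x|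
      ≤ ∑ n ∈ Finset.Icc 1 N, |(w n / N) * chiT (oddT (MM H n)) x| :=
        Finset.abs_sum_le_sum_abs _ _
    _ ≤ ∑ n ∈ Finset.Icc 1 N, (1:ℝ) / N := by
        refine Finset.sum_le_sum fun n _ => ?_
        rw [abs_mul, abs_chiT, mul_one, abs_div, abs_of_pos hN0]
        exact div_le_div_of_nonneg_right (hw n) hN0.le
    _ = 1 := by
        rw [Finset.sum_const, Nat.card_Icc, nsmul_eq_mul, Nat.add_sub_cancel]
        field_simp

/-- the bounded difference of the natural correlation in the coordinate `p` -/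
lemma BD_FC {w : ℕ → ℝ} (hw : ∀ n, |w n| ≤ 1) {H : Finset ℕ} {N hm p : ℕ} (hN : 1 ≤ N)
    (hhm : hm ≤ N) (hH : ∀ h ∈ H, h ≤ hm) (hp : p.Prime) :
    BD p (FC w H N) (4 * H.card / p) := by
  intro x
  have hN0 : (0:ℝ) < N := by exact_mod_cast hN
  have hp0 : (0:ℝ) < p := by exact_mod_cast hp.pos
  rw [FC_eq, FC_eq, ← Finset.sum_sub_distrib]
  have h1 : ∀ n ∈ Finset.Icc 1 N, |(w n / N) *
      chiT (oddT (MM H n)) (Function.update x p 1) - (w n / N) *
      chiT (oddT (MM H n)) (Function.update x p (-1))| ≤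
      ∑ h ∈ H, (if p ∣ n + h then (1:ℝ) else 0) * (2 / N) := by
    intro n hn
    rw [← mul_sub, abs_mul]
    have hwn : |w n / N| ≤ 1 / N := by
      rw [abs_div, abs_of_pos hN0]
      exact div_le_div_of_nonneg_right (hw n) hN0.le
    by_cases hT : p ∈ oddT (MM H n)
    · have hdvd : p ∣ MM H n := by
        unfold oddT at hT
        rw [Finset.mem_filter, Nat.mem_primeFactors] at hT
        exact hT.1.2.1
      obtain ⟨h, hh, hph⟩ := (Nat.Prime.prime hp).exists_mem_finset_dvd hdvd
      have h2 : |chiT (oddT (MM H n)) (Function.update x p 1) -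
          chiT (oddT (MM H n)) (Function.update x p (-1))| ≤ 2 := by
        calc _ ≤ |chiT (oddT (MM H n)) (Function.update x p 1)| +
              |chiT (oddT (MM H n)) (Function.update x p (-1))| := abs_sub _ _
          _ = 2 := by rw [abs_chiT, abs_chiT]; norm_num
      calc |w n / N| * |chiT (oddT (MM H n)) (Function.update x p 1) -
            chiT (oddT (MM H n)) (Function.update x p (-1))|
          ≤ (1 / N) * 2 := mul_le_mul hwn h2 (abs_nonneg _) (by positivity)
        _ = (if p ∣ n + h then (1:ℝ) else 0) * (2 / N) := by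
            rw [if_pos hph]
            ring
        _ ≤ ∑ h ∈ H, (if p ∣ n + h then (1:ℝ) else 0) * (2 / N) := by
            apply Finset.single_le_sum (f := fun h => (if p ∣ n + h then (1:ℝ) else 0) *
              (2 / (N:ℝ))) _ hh
            intro i _
            split_ifs <;> positivity
    · rw [chiT_update_of_notMem hT, chiT_update_of_notMem hT, sub_self, abs_zero, mul_zero]
      apply Finset.sum_nonneg
      intro i _
      split_ifs <;> positivity
  calc |∑ n ∈ Finset.Icc 1 N, ((w n / N) *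
        chiT (oddT (MM H n)) (Function.update x p 1) - (w n / N) *
        chiT (oddT (MM H n)) (Function.update x p (-1)))|
      ≤ ∑ n ∈ Finset.Icc 1 N, |(w n / N) *
        chiT (oddT (MM H n)) (Function.update x p 1) - (w n / N) *
        chiT (oddT (MM H n)) (Function.update x p (-1))| := Finset.abs_sum_le_sum_abs _ _
    _ ≤ ∑ n ∈ Finset.Icc 1 N, ∑ h ∈ H, (if p ∣ n + h then (1:ℝ) else 0) * (2 / N) :=
        Finset.sum_le_sum h1
    _ = ∑ h ∈ H, (((Finset.Icc 1 N).filter fun n => p ∣ n + h).card : ℝ) * (2 / N) := by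
        rw [Finset.sum_comm]
        refine Finset.sum_congr rfl fun h _ => ?_
        rw [← Finset.sum_mul, Finset.sum_boole]
    _ ≤ ∑ h ∈ H, (4:ℝ) / p := by
        apply Finset.sum_le_sum
        intro h hh
        have h2 := card_mult_le N h hp.one_le
        have h3 : (h : ℝ) ≤ N := by exact_mod_cast (hH h hh).trans hhm
        calc (((Finset.Icc 1 N).filter fun n => p ∣ n + h).card : ℝ) * (2 / N)
            ≤ ((N + h : ℝ) / p) * (2 / N) := mul_le_mul_of_nonneg_right h2 (by positivity)
          _ ≤ ((N + N : ℝ) / p) * (2 / N) := by gcongr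
          _ = 4 / p := by field_simp; norm_num
    _ = 4 * H.card / p := by
        rw [Finset.sum_const, nsmul_eq_mul]
        ring

variable {ν : ℕ → Measure ℤˣ} [∀ p, IsProbabilityMeasure (ν p)]

lemma concC {θ : ℕ → ℝ} (hθ : ∀ p, θ p = (ν p).real {-1}) {w : ℕ → ℝ} (hw : ∀ n, |w n| ≤ 1)
    {H : Finset ℕ} (hHne : H.Nonempty) {N hm : ℕ} (hN : 1 ≤ N) (hhm : hm ≤ N)
    (hH : ∀ h ∈ H, h ≤ hm) {y ε : ℝ} (hy : 1 ≤ y) (hε : 0 < ε) :
    (Measure.infinitePi ν).real
      {x | ε ≤ |FC w H N x - AVL θ (PL hm N y).toList (FC w H N) x|} ≤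
      2 * Real.exp (-(ε ^ 2 * y / (64 * H.card ^ 2))) := by
  have hc0 : (0:ℝ) < H.card := by exact_mod_cast hHne.card_pos
  have hV0 : 0 < 2 * (4 * (H.card : ℝ)) ^ 2 / y := by positivity
  have h := bounded_differences hθ (c := fun p => 4 * H.card / p) (L := (PL hm N y).toList)
    (Finset.nodup_toList _) (measurable_FC w H N) (FC_bound hw H hN) (by
      intro p hp
      rw [Finset.mem_toList, PL, Finset.mem_filter] at hp
      exact BD_FC hw hN hhm hH hp.2.1) (sum_sq_le hm N hy _) hV0 hε
  refine h.trans (le_of_eq ?_)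
  congr 2
  rw [neg_inj]
  field_simp
  ring

lemma devC_le {θ : ℕ → ℝ} (hθ : ∀ p, θ p = (ν p).real {-1}) {u : ℕ → ℝ} (hu : ∀ n, |u n| ≤ 1)
    {H : Finset ℕ} (hne : H.Nonempty) {N hm : ℕ} (hN : 1 ≤ N) (hhm : hm ≤ N)
    (hH : ∀ h ∈ H, h ≤ hm) {η : ℝ} (hη : 0 < η) {T : ℕ} (hT1 : 1 ≤ AK H.card η * T)
    (D : Finset ℕ) :
    (Measure.infinitePi ν).real (devC θ u H N hm (AK H.card η) η T D) ≤
      2 * Real.exp (-(3 * (T : ℝ))) := by
  have hc0 : (0:ℝ) < H.card := by exact_mod_cast hne.card_pos
  have h := concC hθ (w := fun n => u n * prodSeq (rnd (sD D)) H n) (fun n => by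
    rw [abs_mul]
    exact mul_le_one₀ (hu n) (abs_nonneg _) (abs_prodSeq _ H n).le) hne hN hhm hH
    (y := AK H.card η * T) hT1 hη
  refine h.trans (le_of_eq ?_)
  congr 2
  rw [neg_inj]
  unfold AK
  field_simp
  ring

lemma devUC_le {θ : ℕ → ℝ} (hθ : ∀ p, θ p = (ν p).real {-1}) {u : ℕ → ℝ} (hu : ∀ n, |u n| ≤ 1)
    {H : Finset ℕ} (hne : H.Nonempty) {N hm : ℕ} (hN : 1 ≤ N) (hhm : hm ≤ N)
    (hH : ∀ h ∈ H, h ≤ hm) {η : ℝ} (hη : 0 < η) {T₀ M : ℕ} (hT1 : 1 ≤ AK H.card η * T₀) :
    (Measure.infinitePi ν).real (devUC θ u H N hm (AK H.card η) η T₀ M) ≤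
      4 * Real.exp (-(2 * (T₀ : ℝ))) := by
  have hA : 0 ≤ AK H.card η := by unfold AK; positivity
  have key : ∀ T ∈ Finset.Icc T₀ M, (Measure.infinitePi ν).real
      (⋃ D ∈ (Finset.Icc 1 T).powerset, devC θ u H N hm (AK H.card η) η T D) ≤
      2 * Real.exp (-(2 * (T : ℝ))) := by
    intro T hT
    rw [Finset.mem_Icc] at hT
    have hTT : (T₀ : ℝ) ≤ T := by exact_mod_cast hT.1
    have h1 : 1 ≤ AK H.card η * T := hT1.trans (mul_le_mul_of_nonneg_left hTT hA)
    calc (Measure.infinitePi ν).real
          (⋃ D ∈ (Finset.Icc 1 T).powerset, devC θ u H N hm (AK H.card η) η T D)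
        ≤ ∑ D ∈ (Finset.Icc 1 T).powerset, (Measure.infinitePi ν).real
            (devC θ u H N hm (AK H.card η) η T D) := measureReal_biUnion_finset_le _ _
      _ ≤ ∑ D ∈ (Finset.Icc 1 T).powerset, 2 * Real.exp (-(3 * (T : ℝ))) :=
          Finset.sum_le_sum fun D _ => devC_le hθ hu hne hN hhm hH hη h1 D
      _ = 2 ^ T * (2 * Real.exp (-(3 * (T : ℝ)))) := by
          rw [Finset.sum_const, Finset.card_powerset, Nat.card_Icc, nsmul_eq_mul]
          norm_num
      _ ≤ Real.exp T * (2 * Real.exp (-(3 * (T : ℝ)))) := by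
          apply mul_le_mul_of_nonneg_right _ (by positivity)
          have h3 : (2:ℝ) ≤ Real.exp 1 := by
            have := Real.add_one_le_exp (1:ℝ)
            linarith
          calc (2:ℝ) ^ T ≤ (Real.exp 1) ^ T := pow_le_pow_left₀ (by norm_num) h3 T
            _ = Real.exp T := by rw [← Real.exp_nat_mul, mul_one]
      _ = 2 * Real.exp (-(2 * (T : ℝ))) := by
          rw [mul_comm (2:ℝ) (Real.exp (-(3 * (T:ℝ)))), ← mul_assoc, ← Real.exp_add, mul_comm]
          congr 2
          ring
  calc (Measure.infinitePi ν).real (devUC θ u H N hm (AK H.card η) η T₀ M)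
      ≤ ∑ T ∈ Finset.Icc T₀ M, (Measure.infinitePi ν).real
          (⋃ D ∈ (Finset.Icc 1 T).powerset, devC θ u H N hm (AK H.card η) η T D) :=
        measureReal_biUnion_finset_le _ _
    _ ≤ ∑ T ∈ Finset.Icc T₀ M, 2 * Real.exp (-(2 * (T : ℝ))) := Finset.sum_le_sum key
    _ ≤ 4 * Real.exp (-(2 * (T₀ : ℝ))) := by
        rw [← Finset.mul_sum]
        have h4 : ∑ T ∈ Finset.Icc T₀ M, Real.exp (-(2 * (T : ℝ))) ≤
            2 * Real.exp (-(2 * (T₀ : ℝ))) := by
          have h5 : ∀ T ∈ Finset.Icc T₀ M, Real.exp (-(2 * (T : ℝ))) ≤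
              Real.exp (-(2 * (T₀ : ℝ))) * (1/2) ^ (T - T₀) := by
            intro T hT
            rw [Finset.mem_Icc] at hT
            have h6 : (T : ℝ) = T₀ + (T - T₀ : ℕ) := by
              rw [Nat.cast_sub hT.1]
              ring
            have h7 : Real.exp (-(2 * (T : ℝ))) = Real.exp (-(2 * (T₀ : ℝ))) *
                Real.exp (-2) ^ (T - T₀) := by
              rw [← Real.exp_nat_mul, ← Real.exp_add, h6]
              congr 1
              ring
            rw [h7]
            apply mul_le_mul_of_nonneg_left _ (Real.exp_pos _).le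
            apply pow_le_pow_left₀ (Real.exp_pos _).le
            rw [Real.exp_neg, ← one_div]
            apply one_div_le_one_div_of_le (by norm_num)
            have := Real.add_one_le_exp (2:ℝ)
            linarith
          calc ∑ T ∈ Finset.Icc T₀ M, Real.exp (-(2 * (T : ℝ)))
              ≤ ∑ T ∈ Finset.Icc T₀ M, Real.exp (-(2 * (T₀ : ℝ))) * (1/2) ^ (T - T₀) :=
                Finset.sum_le_sum h5
            _ = Real.exp (-(2 * (T₀ : ℝ))) * ∑ T ∈ Finset.Icc T₀ M, (1/2 : ℝ) ^ (T - T₀) := by
                rw [Finset.mul_sum]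
            _ ≤ Real.exp (-(2 * (T₀ : ℝ))) * 2 := by
                apply mul_le_mul_of_nonneg_left _ (Real.exp_pos _).le
                calc ∑ T ∈ Finset.Icc T₀ M, (1/2 : ℝ) ^ (T - T₀)
                    ≤ ∑ j ∈ Finset.range (M + 1), (1/2 : ℝ) ^ j := by
                      have hinj : Set.InjOn (fun T => T - T₀) (Finset.Icc T₀ M : Set ℕ) := by
                        intro a ha b hb hab
                        rw [Finset.coe_Icc, Set.mem_Icc] at ha hb
                        simp only at hab
                        omega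
                      rw [← Finset.sum_image (f := fun j => (1/2 : ℝ) ^ j) hinj]
                      apply Finset.sum_le_sum_of_subset_of_nonneg
                      · intro j hj
                        rw [Finset.mem_image] at hj
                        obtain ⟨T, hT, rfl⟩ := hj
                        rw [Finset.mem_Icc] at hT
                        rw [Finset.mem_range]
                        omega
                      · intro _ _ _
                        positivity
                  _ ≤ 2 := by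
                      have := (sum_geometric_two_le (M + 1))
                      simpa using this
            _ = 2 * Real.exp (-(2 * (T₀ : ℝ))) := by ring
        linarith

end Pool.Agent.Lib.P4a7640N2
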