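import Mathlib
import Pool.Agent.Lib.P4a7640N2.Par

/-!
# Conditional means for natural averages, uniformly in the threshold
-/

open MeasureTheory ProbabilityTheory Filter Topology
open scoped ENNReal

namespace Pool.Agent.Lib.P4a7640N2

open Pool.Agent.Lib.P4a7640 Pool.Agent.Lib.P4a7640N Pool.Agent.Lib.P4a7640Ces

/-- the number of multiples of `d` among the `n + h`, `n ≤ N` -/
private noncomputable def CC (N h d : ℕ) : ℝ :=
  ∑ _n ∈ (Finset.Icc 1 N).filter (fun n => d ∣ n + h), (1:ℝ)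

private lemma CC_le (N h : ℕ) {d : ℕ} (hd : 1 ≤ d) : CC N h d ≤ 1 / d * ((N:ℝ) + h) := by
  have h1 := card_mult_le N h hd
  unfold CC
  rw [Finset.sum_const, nsmul_eq_mul, mul_one]
  calc _ ≤ ((N:ℝ) + h) / d := h1
    _ = _ := by ring

private lemma le_CC (N h : ℕ) {d : ℕ} (hd : 1 ≤ d) : (N:ℝ) / d - 1 ≤ CC N h d := by
  have hd0 : (0:ℝ) < d := by exact_mod_cast hd
  unfold CC
  rw [Finset.sum_const, nsmul_eq_mul, mul_one]
  -- multiples of `d` in `(h, N + h]`
  have h1 : (N + h) / d - h / d ≤ ((Finset.Icc 1 N).filter fun n => d ∣ n + h).card := by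
    have h2 : ((Finset.Ioc (h / d) ((N + h) / d)).card) ≤
        ((Finset.Icc 1 N).filter fun n => d ∣ n + h).card := by
      refine Finset.card_le_card_of_injOn (fun k => k * d - h) (fun k hk => ?_) ?_
      · rw [Finset.mem_coe, Finset.mem_Ioc] at hk
        rw [Finset.mem_coe, Finset.mem_filter, Finset.mem_Icc]
        have h3 : h < k * d := by
          have := Nat.lt_mul_of_div_lt hk.1 (by omega)
          exact this
        have h4 : k * d ≤ N + h := (Nat.le_div_iff_mul_le (by omega)).1 hk.2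
        refine ⟨⟨?_, ?_⟩, ?_⟩
        · show 1 ≤ k * d - h
          omega
        · show k * d - h ≤ N
          omega
        · show d ∣ k * d - h + h
          rw [Nat.sub_add_cancel h3.le]
          exact Dvd.intro_left k rfl
      · intro k hk k' hk' he
        rw [Finset.mem_coe, Finset.mem_Ioc] at hk hk'
        have h3 : h < k * d := Nat.lt_mul_of_div_lt hk.1 (by omega)
        have h3' : h < k' * d := Nat.lt_mul_of_div_lt hk'.1 (by omega)
        have he' : k * d - h = k' * d - h := he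
        have h5 : k * d = k' * d := by omega
        exact Nat.eq_of_mul_eq_mul_right (by omega) h5
    rwa [Nat.card_Ioc] at h2
  have h6 : (N:ℝ) / d - 1 ≤ (((N + h) / d - h / d : ℕ) : ℝ) := by
    have h7 : h / d ≤ (N + h) / d := Nat.div_le_div_right (by omega)
    rw [Nat.cast_sub h7]
    have h8 : ((h / d : ℕ) : ℝ) ≤ (h:ℝ) / d := Nat.cast_div_le
    have h9 : ((N:ℝ) + h) / d - 1 ≤ (((N + h) / d : ℕ) : ℝ) := by
      have h10 : N + h < ((N + h) / d + 1) * d := by
        have := Nat.lt_div_mul_add (a := N + h) (show 0 < d by omega)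
        rw [add_mul, one_mul]
        exact this
      have h11 : ((N:ℝ) + h) < ((((N + h) / d : ℕ) : ℝ) + 1) * d := by exact_mod_cast h10
      have h12 : ((N:ℝ) + h) / d < (((N + h) / d : ℕ) : ℝ) + 1 := by
        rw [div_lt_iff₀ hd0]
        exact h11
      linarith
    have h13 : ((N:ℝ) + h) / d = (N:ℝ) / d + (h:ℝ) / d := by ring
    linarith
  exact h6.trans (by exact_mod_cast h1)

private lemma secondC {s : Finset ℕ} {τ : ℕ → ℝ} (hτ : ∀ p, 0 ≤ τ p) (hτ1 : ∀ p, τ p ≤ 1)
    {N h : ℕ} (hs : ∀ p ∈ s, p.Prime) :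
    ∑ n ∈ Finset.Icc 1 N, XX s τ h n ^ 2 ≤ (VV s τ + VV s τ ^ 2) * ((N:ℝ) + h) := by
  set R : ℝ := (N:ℝ) + h with hR
  have hR0 : 0 ≤ R := by positivity
  have h1 : ∀ n ∈ Finset.Icc 1 N, XX s τ h n ^ 2 ≤
      ∑ p ∈ s, ∑ q ∈ s, τ p * τ q * (if p ∣ n + h ∧ q ∣ n + h then (1:ℝ) else 0) := by
    intro n _
    unfold XX
    rw [sq, Finset.sum_mul_sum]
    refine Finset.sum_le_sum fun p _ => ?_
    refine Finset.sum_le_sum fun q _ => ?_
    by_cases hp : p ∣ n + h
    · by_cases hq : q ∣ n + h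
      · rw [if_pos (show p ∣ n + h ∧ q ∣ n + h from ⟨hp, hq⟩), mul_one]
        have h2 : (if p ∣ n + h ∧ ¬ p^2 ∣ n + h then τ p else 0) ≤ τ p := by
          split_ifs
          exacts [le_rfl, hτ p]
        have h3 : (if q ∣ n + h ∧ ¬ q^2 ∣ n + h then τ q else 0) ≤ τ q := by
          split_ifs
          exacts [le_rfl, hτ q]
        have h4 : 0 ≤ (if q ∣ n + h ∧ ¬ q^2 ∣ n + h then τ q else 0) := by
          split_ifs
          exacts [hτ q, le_rfl]
        exact mul_le_mul h2 h3 h4 (hτ p)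
      · rw [if_neg (show ¬ (q ∣ n + h ∧ ¬ q^2 ∣ n + h) from fun hh => hq hh.1), mul_zero,
          if_neg (show ¬ (p ∣ n + h ∧ q ∣ n + h) from fun hh => hq hh.2), mul_zero]
    · rw [if_neg (show ¬ (p ∣ n + h ∧ ¬ p^2 ∣ n + h) from fun hh => hp hh.1), zero_mul,
        if_neg (show ¬ (p ∣ n + h ∧ q ∣ n + h) from fun hh => hp hh.1), mul_zero]
  have hpq : ∀ p ∈ s, ∀ q ∈ s, ∑ n ∈ Finset.Icc 1 N,
      (if p ∣ n + h ∧ q ∣ n + h then (1:ℝ) else 0) ≤
      (if p = q then 1 / p * R else 0) + 1 / (p * q) * R := by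
    intro p hp q hq
    have hp0 : 0 < p := (hs p hp).pos
    have hq0 : 0 < q := (hs q hq).pos
    by_cases he : p = q
    · subst he
      rw [if_pos rfl]
      have h2 : ∑ n ∈ Finset.Icc 1 N, (if p ∣ n + h ∧ p ∣ n + h then (1:ℝ) else 0) =
          CC N h p := by
        unfold CC
        rw [Finset.sum_filter]
        refine Finset.sum_congr rfl fun n _ => ?_
        simp only [and_self]
      rw [h2]
      have h3 := CC_le N h (d := p) hp0
      have h4 : 0 ≤ 1 / ((p:ℝ) * p) * R := by positivity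
      linarith
    · rw [if_neg he, zero_add]
      have h2 : ∑ n ∈ Finset.Icc 1 N, (if p ∣ n + h ∧ q ∣ n + h then (1:ℝ) else 0) =
          CC N h (p * q) := by
        unfold CC
        rw [Finset.sum_filter]
        refine Finset.sum_congr rfl fun n _ => ?_
        have hcop : Nat.Coprime p q := (Nat.coprime_primes (hs p hp) (hs q hq)).mpr he
        by_cases hh : p * q ∣ n + h
        · rw [if_pos hh, if_pos ⟨(Dvd.intro _ rfl).trans hh, (Dvd.intro_left _ rfl).trans hh⟩]
        · rw [if_neg hh, if_neg]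
          rintro ⟨ha, hb⟩
          exact hh (hcop.mul_dvd_of_dvd_of_dvd ha hb)
      rw [h2]
      have h3 := CC_le N h (d := p * q) (show 1 ≤ p * q from Nat.mul_pos hp0 hq0)
      push_cast at h3
      exact h3
  calc ∑ n ∈ Finset.Icc 1 N, XX s τ h n ^ 2
      ≤ ∑ n ∈ Finset.Icc 1 N, ∑ p ∈ s, ∑ q ∈ s, τ p * τ q *
          (if p ∣ n + h ∧ q ∣ n + h then (1:ℝ) else 0) := Finset.sum_le_sum h1
    _ = ∑ p ∈ s, ∑ q ∈ s, τ p * τ q *
          ∑ n ∈ Finset.Icc 1 N, (if p ∣ n + h ∧ q ∣ n + h then (1:ℝ) else 0) := by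
        rw [Finset.sum_comm]
        refine Finset.sum_congr rfl fun p _ => ?_
        rw [Finset.sum_comm]
        refine Finset.sum_congr rfl fun q _ => ?_
        rw [Finset.mul_sum]
    _ ≤ ∑ p ∈ s, ∑ q ∈ s, τ p * τ q * ((if p = q then 1 / p * R else 0) + 1 / (p * q) * R) := by
        refine Finset.sum_le_sum fun p hp => Finset.sum_le_sum fun q hq => ?_
        exact mul_le_mul_of_nonneg_left (hpq p hp q hq) (mul_nonneg (hτ p) (hτ q))
    _ ≤ ∑ p ∈ s, (τ p / p * R + ∑ q ∈ s, τ p / p * (τ q / q) * R) := by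
        refine Finset.sum_le_sum fun p hp => ?_
        simp only [mul_add, Finset.sum_add_distrib]
        apply add_le_add
        · have h2 : ∀ q ∈ s, τ p * τ q * (if p = q then 1 / (p:ℝ) * R else 0) =
              if p = q then τ p * τ p * (1 / p * R) else 0 := by
            intro q _
            by_cases he : p = q
            · subst he
              simp
            · simp [he]
          rw [Finset.sum_congr rfl h2, Finset.sum_ite_eq, if_pos hp]
          have h3 : τ p * τ p ≤ τ p := by nlinarith [hτ p, hτ1 p]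
          have h4 : 0 ≤ 1 / (p:ℝ) * R := by positivity
          calc τ p * τ p * (1 / p * R) ≤ τ p * (1 / p * R) := mul_le_mul_of_nonneg_right h3 h4
            _ = τ p / p * R := by ring
        · refine le_of_eq (Finset.sum_congr rfl fun q _ => ?_)
          rw [div_mul_div_comm]
          ring
    _ = (VV s τ + VV s τ ^ 2) * R := by
        rw [Finset.sum_add_distrib]
        have h2 : ∑ p ∈ s, ∑ q ∈ s, τ p / p * (τ q / q) * R = VV s τ ^ 2 * R := by
          unfold VV
          rw [sq, Finset.sum_mul_sum, Finset.sum_mul]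
          refine Finset.sum_congr rfl fun p _ => ?_
          rw [Finset.sum_mul]
        rw [h2]
        unfold VV
        rw [add_mul, Finset.sum_mul]

private lemma firstC {s : Finset ℕ} {τ : ℕ → ℝ} (hτ : ∀ p, 0 ≤ τ p) (hτ1 : ∀ p, τ p ≤ 1)
    {N h : ℕ} (hs : ∀ p ∈ s, p.Prime ∧ p ≤ N) :
    VV s τ * N - N - 2 * ((N:ℝ) + h) ≤ ∑ n ∈ Finset.Icc 1 N, XX s τ h n := by
  set R : ℝ := (N:ℝ) + h with hR
  have hR0 : 0 ≤ R := by positivity
  have h1 : ∑ n ∈ Finset.Icc 1 N, XX s τ h n = ∑ p ∈ s, τ p * (CC N h p - CC N h (p^2)) := by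
    unfold XX
    rw [Finset.sum_comm]
    refine Finset.sum_congr rfl fun p _ => ?_
    unfold CC
    rw [Finset.sum_filter, Finset.sum_filter, ← Finset.sum_sub_distrib, Finset.mul_sum]
    refine Finset.sum_congr rfl fun n _ => ?_
    by_cases hp : p ∣ n + h
    · by_cases hq : p^2 ∣ n + h
      · rw [if_neg (fun hh => hh.2 hq), if_pos hp, if_pos hq]
        simp
      · rw [if_pos ⟨hp, hq⟩, if_pos hp, if_neg hq]
        ring
    · rw [if_neg (fun hh => hp hh.1), if_neg hp,
        if_neg (fun hq => hp ((Dvd.intro_left (p^1) (by ring)).trans hq))]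
      simp
  rw [h1]
  have h2 : ∀ p ∈ s, τ p / p * N - 1 - 1 / (p:ℝ)^2 * R ≤
      τ p * (CC N h p - CC N h (p^2)) := by
    intro p hp
    obtain ⟨hpp, hpN⟩ := hs p hp
    have hp0 : (0:ℝ) < p := by exact_mod_cast hpp.pos
    have h3 := le_CC N h (d := p) hpp.pos
    have h4 := CC_le N h (d := p^2) (Nat.pos_of_ne_zero (by
      have := hpp.pos
      positivity))
    push_cast at h4
    have h6 : (N:ℝ) / p - 1 - 1 / (p:ℝ)^2 * R ≤ CC N h p - CC N h (p^2) := by
      linarith
    have h7 : 0 ≤ 1 / (p:ℝ)^2 * R := by positivity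
    calc τ p / p * N - 1 - 1 / (p:ℝ)^2 * R
        ≤ τ p * ((N:ℝ) / p - 1 - 1 / (p:ℝ)^2 * R) := by
          have h8 : τ p / p * N = τ p * ((N:ℝ) / p) := by ring
          rw [h8]
          nlinarith [hτ1 p, hτ p]
      _ ≤ _ := mul_le_mul_of_nonneg_left h6 (hτ p)
  have hcard : (s.card : ℝ) ≤ N := by
    have h3 : s ⊆ Finset.Icc 1 N := by
      intro p hp
      rw [Finset.mem_Icc]
      exact ⟨(hs p hp).1.pos, (hs p hp).2⟩
    have h4 := Finset.card_le_card h3
    rw [Nat.card_Icc, Nat.add_sub_cancel] at h4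
    exact_mod_cast h4
  have hinv : ∑ p ∈ s, 1 / (p:ℝ)^2 ≤ 2 := by
    calc ∑ p ∈ s, 1 / (p:ℝ)^2 ≤ ∑ p ∈ Finset.Icc 1 N, 1 / (p:ℝ)^2 := by
          apply Finset.sum_le_sum_of_subset_of_nonneg
          · intro p hp
            rw [Finset.mem_Icc]
            exact ⟨(hs p hp).1.pos, (hs p hp).2⟩
          · intro _ _ _
            positivity
      _ ≤ 2 := sum_inv_sq_le N
  calc VV s τ * N - N - 2 * R
      ≤ VV s τ * N - s.card - (∑ p ∈ s, 1 / (p:ℝ)^2) * R := by
        have := mul_le_mul_of_nonneg_right hinv hR0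
        linarith
    _ = ∑ p ∈ s, (τ p / p * N - 1 - 1 / (p:ℝ)^2 * R) := by
        rw [Finset.sum_sub_distrib, Finset.sum_sub_distrib, ← Finset.sum_mul, ← Finset.sum_mul,
          Finset.sum_const, nsmul_eq_mul, mul_one]
        rfl
    _ ≤ _ := Finset.sum_le_sum h2

/-- exponential decay on average -/
lemma exp_avgC {s : Finset ℕ} {τ : ℕ → ℝ} (hτ : ∀ p, 0 ≤ τ p) (hτ1 : ∀ p, τ p ≤ 1)
    {N h : ℕ} (hN : 1 ≤ N) (hh : h ≤ N) (hV : 0 < VV s τ) (hs : ∀ p ∈ s, p.Prime ∧ p ≤ N) :
    (∑ n ∈ Finset.Icc 1 N, Real.exp (-2 * XX s τ h n)) / (N : ℝ) ≤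
      4 * h / N + 60 / VV s τ + Real.exp (-VV s τ) := by
  set V := VV s τ with hVdef
  have hN0 : (0:ℝ) < N := by exact_mod_cast hN
  have hh0 : (0:ℝ) ≤ h := Nat.cast_nonneg h
  have hhN : (h:ℝ) ≤ N := by exact_mod_cast hh
  have hm2 := secondC hτ hτ1 (N := N) (h := h) (s := s) (fun p hp => (hs p hp).1)
  have hm1 := firstC hτ hτ1 (N := N) (h := h) (s := s) hs
  rw [← hVdef] at hm1 hm2
  have hvar : ∑ n ∈ Finset.Icc 1 N, (XX s τ h n - V)^2 ≤ V^2 * h + 12 * V * N := by
    have e : ∑ n ∈ Finset.Icc 1 N, (XX s τ h n - V)^2 = ∑ n ∈ Finset.Icc 1 N, XX s τ h n ^ 2 -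
        2 * V * ∑ n ∈ Finset.Icc 1 N, XX s τ h n + V^2 * N := by
      have h0 : V^2 * (N:ℝ) = ∑ _n ∈ Finset.Icc 1 N, V^2 := by
        rw [Finset.sum_const, nsmul_eq_mul, Nat.card_Icc, Nat.add_sub_cancel, mul_comm]
      rw [h0, Finset.mul_sum, ← Finset.sum_sub_distrib, ← Finset.sum_add_distrib]
      refine Finset.sum_congr rfl fun n _ => ?_
      ring
    rw [e]
    have h1 : 2 * V * (V * N - N - 2 * ((N:ℝ) + h)) ≤ 2 * V * ∑ n ∈ Finset.Icc 1 N, XX s τ h n :=
      mul_le_mul_of_nonneg_left hm1 (by positivity)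
    have h2 : V * h ≤ V * N := mul_le_mul_of_nonneg_left hhN hV.le
    nlinarith [hm2, h1, h2]
  -- Chebyshev
  have hcheb : ∑ _n ∈ (Finset.Icc 1 N).filter (fun n => XX s τ h n < V / 2), (1:ℝ) ≤
      4 / V^2 * (V^2 * h + 12 * V * N) := by
    calc ∑ _n ∈ (Finset.Icc 1 N).filter (fun n => XX s τ h n < V / 2), (1:ℝ)
        ≤ ∑ n ∈ (Finset.Icc 1 N).filter (fun n => XX s τ h n < V / 2),
            4 / V^2 * (XX s τ h n - V)^2 := by
          apply Finset.sum_le_sum
          intro n hn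
          rw [Finset.mem_filter] at hn
          have h1 : (V/2)^2 ≤ (XX s τ h n - V)^2 := by
            have h2 := hn.2
            have h3 := XX_nonneg hτ h n (s := s)
            nlinarith
          rw [div_mul_eq_mul_div, le_div_iff₀ (by positivity)]
          nlinarith
      _ ≤ ∑ n ∈ Finset.Icc 1 N, 4 / V^2 * (XX s τ h n - V)^2 := by
          apply Finset.sum_le_sum_of_subset_of_nonneg (Finset.filter_subset _ _)
          intro n _ _
          positivity
      _ = 4 / V^2 * ∑ n ∈ Finset.Icc 1 N, (XX s τ h n - V)^2 := by rw [Finset.mul_sum]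
      _ ≤ _ := mul_le_mul_of_nonneg_left hvar (by positivity)
  have hsplit : ∑ n ∈ Finset.Icc 1 N, Real.exp (-2 * XX s τ h n) ≤
      ∑ _n ∈ (Finset.Icc 1 N).filter (fun n => XX s τ h n < V / 2), (1:ℝ) +
        Real.exp (-V) * N := by
    calc ∑ n ∈ Finset.Icc 1 N, Real.exp (-2 * XX s τ h n)
        ≤ ∑ n ∈ Finset.Icc 1 N, ((if XX s τ h n < V / 2 then (1:ℝ) else 0) +
            Real.exp (-V)) := by
          apply Finset.sum_le_sum
          intro n _
          by_cases hx : XX s τ h n < V / 2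
          · rw [if_pos hx]
            have h1 : Real.exp (-2 * XX s τ h n) ≤ 1 := by
              rw [Real.exp_le_one_iff]
              have := XX_nonneg hτ h n (s := s)
              linarith
            have h3 : 0 ≤ Real.exp (-V) := (Real.exp_pos _).le
            linarith
          · rw [if_neg hx, zero_add]
            push Not at hx
            apply Real.exp_le_exp.mpr
            linarith
      _ = _ := by
          rw [Finset.sum_add_distrib, Finset.sum_filter, Finset.sum_const, nsmul_eq_mul,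
            Nat.card_Icc, Nat.add_sub_cancel, mul_comm (N:ℝ)]
  calc (∑ n ∈ Finset.Icc 1 N, Real.exp (-2 * XX s τ h n)) / (N:ℝ)
      ≤ (4 / V^2 * (V^2 * h + 12 * V * N) + Real.exp (-V) * N) / N := by
        apply div_le_div_of_nonneg_right _ hN0.le
        linarith
    _ = 4 * h / N + 48 / V + Real.exp (-V) := by
        field_simp
        ring
    _ ≤ _ := by
        have h1 : 48 / V ≤ 60 / V := div_le_div_of_nonneg_right (by norm_num) hV.le
        linarith

private lemma FC_eq' (w : ℕ → ℝ) (H : Finset ℕ) (N : ℕ) (x : SS) :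
    FC w H N x = ∑ n ∈ Finset.Icc 1 N, (w n / N) * chiT (oddT (MM H n)) x := by
  unfold FC
  rw [Finset.sum_div]
  refine Finset.sum_congr rfl fun n hn => ?_
  rw [Finset.mem_Icc] at hn
  have h1 : ∏ h ∈ H, sg (rnd x (n + h)) = chiT (oddT (MM H n)) x := by
    rw [← sg_rnd, MM, rnd_prod x H (fun h => n + h) (fun h _ => by omega), sg_prod]
  rw [h1]
  ring

lemma AVL_FC_le {θ : ℕ → ℝ} (hθ0 : ∀ p, 0 ≤ θ p) (hθ1 : ∀ p, θ p ≤ 1) {w : ℕ → ℝ}
    (hw : ∀ n, |w n| ≤ 1) {H : Finset ℕ} {N hm h₀ : ℕ} (hN : 1 ≤ N) (hh₀ : h₀ ∈ H)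
    (hH : ∀ h ∈ H, h ≤ hm) {y : ℝ} {s : Finset ℕ} (hs : ∀ p ∈ s, p ∈ PL hm N y ∧ hm < p) (x : SS) :
    |AVL θ (PL hm N y).toList (FC w H N) x| ≤
      (∑ n ∈ Finset.Icc 1 N, Real.exp (-2 * XX s (fun p => min (θ p) (1 - θ p)) h₀ n)) / N := by
  have hN0 : (0:ℝ) < N := by exact_mod_cast hN
  have h1 : FC w H N = fun x => ∑ n ∈ Finset.Icc 1 N, (w n / N) *
      chiT (oddT (MM H n)) x := funext (FC_eq' w H N)
  rw [h1, AVL_sum]
  simp only [AVL_const_mul]
  calc |∑ n ∈ Finset.Icc 1 N, w n / N *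
        AVL θ (PL hm N y).toList (chiT (oddT (MM H n))) x|
      ≤ ∑ n ∈ Finset.Icc 1 N, |w n / N *
        AVL θ (PL hm N y).toList (chiT (oddT (MM H n))) x| := Finset.abs_sum_le_sum_abs _ _
    _ ≤ ∑ n ∈ Finset.Icc 1 N, (1:ℝ) / N *
        Real.exp (-2 * XX s (fun p => min (θ p) (1 - θ p)) h₀ n) := by
        refine Finset.sum_le_sum fun n hn => ?_
        rw [Finset.mem_Icc] at hn
        rw [abs_mul]
        apply mul_le_mul _ _ (abs_nonneg _) (by positivity)
        · rw [abs_div, abs_of_pos hN0]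
          exact div_le_div_of_nonneg_right (hw n) hN0.le
        · refine (AVL_chiT_le θ _ _ (Finset.nodup_toList _) x).trans ?_
          set T' := (oddT (MM H n)).filter (fun p => p ∈ (PL hm N y).toList) with hT'
          set s' := s.filter (fun p => p ∣ n + h₀ ∧ ¬ p ^ 2 ∣ n + h₀) with hs'
          have hsub : s' ⊆ T' := by
            intro p hp
            rw [hs', Finset.mem_filter] at hp
            obtain ⟨hps, hd1, hd2⟩ := hp
            have h2 := hs p hps
            have hprime : p.Prime := by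
              have := h2.1
              unfold PL at this
              rw [Finset.mem_filter] at this
              exact this.2.1
            rw [hT', Finset.mem_filter, Finset.mem_toList]
            exact ⟨mem_oddT hh₀ hH hn.1 hprime h2.2 hd1 hd2, h2.1⟩
          have hle1 : ∀ p, |1 - 2 * θ p| ≤ 1 := by
            intro p
            rw [abs_le]
            constructor <;> linarith [hθ0 p, hθ1 p]
          have hexp : Real.exp (-2 * XX s (fun p => min (θ p) (1 - θ p)) h₀ n) =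
              ∏ p ∈ s', Real.exp (-2 * min (θ p) (1 - θ p)) := by
            rw [← Real.exp_sum, XX, ← Finset.sum_filter, Finset.mul_sum]
          rw [hexp, ← Finset.prod_sdiff hsub]
          calc (∏ p ∈ T' \ s', |1 - 2 * θ p|) * ∏ p ∈ s', |1 - 2 * θ p|
              ≤ 1 * ∏ p ∈ s', Real.exp (-2 * min (θ p) (1 - θ p)) := by
                apply mul_le_mul _ _ (Finset.prod_nonneg fun p _ => abs_nonneg _) zero_le_one
                · exact Finset.prod_le_one (fun p _ => abs_nonneg _) fun p _ => hle1 p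
                · apply Finset.prod_le_prod (fun p _ => abs_nonneg _)
                  intro p _
                  rw [abs_one_sub_two_mul]
                  have := Real.add_one_le_exp (-2 * min (θ p) (1 - θ p))
                  linarith
            _ = _ := one_mul _
    _ = _ := by
        rw [Finset.sum_div]
        refine Finset.sum_congr rfl fun n _ => ?_
        ring

/-- uniform smallness of the conditional means -/
lemma exists_meanC (H : Finset ℕ) (hne : H.Nonempty) {hm : ℕ} (hH : ∀ h ∈ H, h ≤ hm) {A η : ℝ}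
    (hA : 1 ≤ A) (hη : 0 < η) :
    ∃ V₀ : ℝ, ∀ᶠ N : ℕ in atTop, ∀ θ : ℕ → ℝ, (∀ p, 0 ≤ θ p) → (∀ p, θ p ≤ 1) →
      ∀ T : ℕ, 2 * hm + 1 ≤ T → V₀ ≤ MS (fun p => min (θ p) (1 - θ p)) T N →
      ∀ w : ℕ → ℝ, (∀ n, |w n| ≤ 1) → ∀ x : SS,
        |AVL θ (PL hm N (A * T)).toList (FC w H N) x| ≤ η := by
  obtain ⟨h₀, hh₀⟩ := hne
  -- the needed variance
  obtain ⟨V₁, hV₁, hexp⟩ : ∃ V₁ : ℝ, 1 ≤ V₁ ∧ ∀ V, V₁ ≤ V → 60 / V ≤ η / 4 ∧
      Real.exp (-V) ≤ η / 4 := by
    have h1 : Tendsto (fun V : ℝ => 60 / V) atTop (𝓝 0) := tendsto_id.const_div_atTop 60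
    have h2 : Tendsto (fun V : ℝ => Real.exp (-V)) atTop (𝓝 0) :=
      Real.tendsto_exp_neg_atTop_nhds_zero
    have h3 := ((h1.eventually (eventually_le_nhds (show 0 < η / 4 by positivity))).and
      (h2.eventually (eventually_le_nhds (show 0 < η / 4 by positivity)))).and
      (eventually_ge_atTop (1:ℝ))
    obtain ⟨V₁, hV₁⟩ := eventually_atTop.mp h3
    refine ⟨max V₁ 1, le_max_right _ _, fun V hV => ?_⟩
    exact (hV₁ V ((le_max_left _ _).trans hV)).1
  refine ⟨V₁ + A, ?_⟩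
  have h4 : Tendsto (fun N : ℕ => 4 * (h₀:ℝ) / N) atTop (𝓝 0) :=
    tendsto_natCast_atTop_atTop.const_div_atTop _
  filter_upwards [eventually_ge_atTop 1, eventually_ge_atTop h₀, h4.eventually (eventually_le_nhds
    (show 0 < η / 4 by positivity))] with N hN1 hN2 hl1 θ hθ0 hθ1 T hT hV w hw x
  set τ : ℕ → ℝ := fun p => min (θ p) (1 - θ p) with hτd
  have hτ : ∀ p, 0 ≤ τ p := fun p => le_min (hθ0 p) (by linarith [hθ1 p])
  have hτ1 : ∀ p, τ p ≤ 1 := fun p => (min_le_left _ _).trans (hθ1 p)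
  set s : Finset ℕ := (Finset.Icc 1 N).filter (fun p => p.Prime ∧ A * T < p) with hs
  have hTr : 2 * (hm:ℝ) + 1 ≤ T := by exact_mod_cast hT
  have hAT : (T:ℝ) ≤ A * T := le_mul_of_one_le_left (Nat.cast_nonneg T) hA
  have hVs : V₁ ≤ VV s τ := by
    have h6 : MS τ T N ≤ VV s τ + ∑ p ∈ (Finset.Ioc T N).filter (fun p : ℕ => (p:ℝ) ≤ A * T),
        (1:ℝ) / p := by
      classical
      have hsub : (Finset.Ioc T N).filter Nat.Prime ⊆ s ∪
          (Finset.Ioc T N).filter (fun p : ℕ => (p:ℝ) ≤ A * T) := by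
        intro p hp
        rw [Finset.mem_filter, Finset.mem_Ioc] at hp
        obtain ⟨⟨hp1, hp2⟩, hpp⟩ := hp
        rw [Finset.mem_union, hs]
        simp only [Finset.mem_filter, Finset.mem_Icc, Finset.mem_Ioc]
        by_cases h7 : (p:ℝ) ≤ A * T
        · exact Or.inr ⟨⟨hp1, hp2⟩, h7⟩
        · push Not at h7
          exact Or.inl ⟨⟨by omega, hp2⟩, hpp, h7⟩
      have hunion : ∀ (a b : Finset ℕ) (f : ℕ → ℝ), (∀ p, 0 ≤ f p) →
          ∑ p ∈ a ∪ b, f p ≤ ∑ p ∈ a, f p + ∑ p ∈ b, f p := by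
        intro a b f hf
        rw [← Finset.sum_union_inter]
        have := Finset.sum_nonneg (s := a ∩ b) (fun p _ => hf p)
        linarith
      have hf0 : ∀ p : ℕ, 0 ≤ τ p / (p:ℝ) := fun p => div_nonneg (hτ p) (Nat.cast_nonneg p)
      have hle : ∀ (a : Finset ℕ), ∑ p ∈ a, τ p / (p:ℝ) ≤ ∑ p ∈ a, (1:ℝ) / p := fun a =>
        Finset.sum_le_sum fun p _ => div_le_div_of_nonneg_right (hτ1 p) (Nat.cast_nonneg p)
      calc MS τ T N ≤ ∑ p ∈ s ∪ (Finset.Ioc T N).filter (fun p : ℕ => (p:ℝ) ≤ A * T),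
            τ p / (p:ℝ) := Finset.sum_le_sum_of_subset_of_nonneg hsub fun p _ _ => hf0 p
        _ ≤ _ := (hunion _ _ _ hf0).trans (add_le_add le_rfl (hle _))
    have h9 := mid_mass (A := A) (by linarith) (T := T) (by omega) N
    linarith
  have hVpos : 0 < VV s τ := by linarith
  obtain ⟨he1, he2⟩ := hexp _ hVs
  refine (AVL_FC_le hθ0 hθ1 hw hN1 hh₀ hH (s := s) ?_ x).trans ?_
  · intro p hp
    rw [hs, Finset.mem_filter, Finset.mem_Icc] at hp
    obtain ⟨⟨hp1, hp2⟩, hpp, hp3⟩ := hp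
    constructor
    · unfold PL
      rw [Finset.mem_filter, Finset.mem_Icc]
      exact ⟨⟨hp1, by omega⟩, hpp, hp3⟩
    · have h10 : (hm:ℝ) < p := by
        have : (0:ℝ) ≤ hm := Nat.cast_nonneg hm
        linarith
      exact_mod_cast h10
  · refine (exp_avgC hτ hτ1 hN1 hN2 hVpos ?_).trans ?_
    · intro p hp
      rw [hs, Finset.mem_filter, Finset.mem_Icc] at hp
      exact ⟨hp.2.1, hp.1.2⟩
    · linarith

end Pool.Agent.Lib.P4a7640N2
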