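import Mathlib
import Pool.Agent.Lib.P4a7640N2.Par

/-!
# Scales, comparison and the slow class for natural averages
-/

open MeasureTheory ProbabilityTheory Filter Topology
open scoped ENNReal

namespace Pool.Agent.Lib.P4a7640N2

open Pool.Agent.Lib.P4a7640 Pool.Agent.Lib.P4a7640N Pool.Agent.Lib.P4a7640Ces

private lemma sc_sqrt : Tendsto (fun k : ℕ => Real.sqrt k) atTop atTop :=
  Real.tendsto_sqrt_atTop.comp tendsto_natCast_atTop_atTop

private lemma sc_exp_le (k : ℕ) : Real.exp (Real.sqrt k) ≤ NC k := Nat.le_ceil _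

private lemma sc_le_exp (k : ℕ) : (NC k : ℝ) ≤ Real.exp (Real.sqrt k) + 1 :=
  (Nat.ceil_lt_add_one (Real.exp_pos _).le).le

private lemma sc_mono : Monotone NC := by
  intro j k hjk
  unfold NC
  apply Nat.ceil_mono
  apply Real.exp_le_exp.mpr
  exact Real.sqrt_le_sqrt (by exact_mod_cast hjk)

lemma tendsto_NC : Tendsto NC atTop atTop :=
  tendsto_nat_ceil_atTop.comp (Real.tendsto_exp_atTop.comp sc_sqrt)

lemma half_log_le_l2_NC {k : ℕ} (hk : 1 ≤ k) : Real.log k / 2 ≤ l2 (NC k) := by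
  unfold l2
  have hk0 : (0:ℝ) < k := by exact_mod_cast hk
  have hs : 0 < Real.sqrt k := Real.sqrt_pos.mpr hk0
  have h1 : Real.sqrt k ≤ Real.log (NC k) := by
    have := Real.log_le_log (Real.exp_pos _) (sc_exp_le k)
    rwa [Real.log_exp] at this
  have h2 := Real.log_le_log hs h1
  rwa [Real.log_sqrt hk0.le] at h2

lemma tendsto_l2 : Tendsto l2 atTop atTop :=
  Real.tendsto_log_atTop.comp (Real.tendsto_log_atTop.comp tendsto_natCast_atTop_atTop)

private lemma sc_ratio : Tendsto (fun k : ℕ => (NC (k + 1) : ℝ) / NC k) atTop (𝓝 1) := by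
  have hdiff : Tendsto (fun k : ℕ => Real.sqrt ((k + 1 : ℕ) : ℝ) - Real.sqrt k) atTop (𝓝 0) := by
    have h1 : Tendsto (fun k : ℕ => 1 / Real.sqrt k) atTop (𝓝 0) := sc_sqrt.const_div_atTop 1
    refine squeeze_zero' (Eventually.of_forall fun k => ?_) ?_ h1
    · have := Real.sqrt_le_sqrt (show (k:ℝ) ≤ ((k + 1 : ℕ) : ℝ) by push_cast; linarith)
      linarith
    · filter_upwards [eventually_ge_atTop 1] with k hk
      have hk0 : (0:ℝ) < k := by exact_mod_cast hk
      have hsk : 0 < Real.sqrt k := Real.sqrt_pos.mpr hk0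
      have h2 : Real.sqrt ((k + 1 : ℕ) : ℝ) ^ 2 = k + 1 := by
        rw [Real.sq_sqrt (by positivity)]
        push_cast
        ring
      have h3 : Real.sqrt (k:ℝ) ^ 2 = k := Real.sq_sqrt hk0.le
      have h4 : 0 ≤ Real.sqrt ((k + 1 : ℕ) : ℝ) := Real.sqrt_nonneg _
      have h5 : Real.sqrt k ≤ Real.sqrt ((k + 1 : ℕ) : ℝ) :=
        Real.sqrt_le_sqrt (by push_cast; linarith)
      rw [le_div_iff₀ hsk]
      nlinarith
  have hup : Tendsto (fun k : ℕ => Real.exp (Real.sqrt ((k + 1 : ℕ) : ℝ) - Real.sqrt k) +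
      Real.exp (-Real.sqrt k)) atTop (𝓝 1) := by
    have h1 : Tendsto (fun k : ℕ => Real.exp (Real.sqrt ((k + 1 : ℕ) : ℝ) - Real.sqrt k)) atTop
        (𝓝 1) := by
      have h0 := (Real.continuous_exp.tendsto 0).comp hdiff
      rw [Real.exp_zero] at h0
      exact h0
    have h2 : Tendsto (fun k : ℕ => Real.exp (-Real.sqrt k)) atTop (𝓝 0) :=
      Real.tendsto_exp_neg_atTop_nhds_zero.comp sc_sqrt
    simpa using h1.add h2
  have hpos : ∀ k : ℕ, (0:ℝ) < NC k := fun k => lt_of_lt_of_le (Real.exp_pos _) (sc_exp_le k)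
  refine tendsto_of_tendsto_of_tendsto_of_le_of_le' tendsto_const_nhds hup ?_ ?_
  · filter_upwards with k
    rw [le_div_iff₀ (hpos k), one_mul]
    exact_mod_cast sc_mono (Nat.le_succ k)
  · filter_upwards with k
    have h3 : 0 < Real.exp (Real.sqrt k) := Real.exp_pos _
    calc (NC (k + 1) : ℝ) / NC k
        ≤ (Real.exp (Real.sqrt ((k + 1 : ℕ) : ℝ)) + 1) / NC k :=
          div_le_div_of_nonneg_right (sc_le_exp (k + 1)) (hpos k).le
      _ ≤ (Real.exp (Real.sqrt ((k + 1 : ℕ) : ℝ)) + 1) / Real.exp (Real.sqrt k) :=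
          div_le_div_of_nonneg_left (by positivity) h3 (sc_exp_le k)
      _ = Real.exp (Real.sqrt ((k + 1 : ℕ) : ℝ) - Real.sqrt k) + Real.exp (-Real.sqrt k) := by
          rw [Real.exp_sub, Real.exp_neg]
          field_simp

/-- one step of the interpolation -/
private lemma sc_step {a : ℕ → ℝ} (ha : ∀ n, |a n| ≤ 1) {K N M : ℕ} (hK : 1 ≤ K) (h1 : K ≤ N)
    (h2 : N ≤ M) : |(∑ n ∈ Finset.Icc 1 N, a n) / (N : ℝ)| ≤
      |(∑ n ∈ Finset.Icc 1 K, a n) / (K : ℝ)| + ((M : ℝ) / K - 1) := by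
  have hK0 : (0:ℝ) < K := by exact_mod_cast hK
  have hN0 : (0:ℝ) < N := by exact_mod_cast (by omega : 0 < N)
  have hKN : (K:ℝ) ≤ N := by exact_mod_cast h1
  have hNM : (N:ℝ) ≤ M := by exact_mod_cast h2
  have e1 : ∑ n ∈ Finset.Icc 1 N, a n = ∑ n ∈ Finset.Icc 1 K, a n + ∑ n ∈ Finset.Ioc K N, a n := by
    rw [← Finset.sum_union]
    · congr 1
      ext n
      rw [Finset.mem_union, Finset.mem_Icc, Finset.mem_Icc, Finset.mem_Ioc]
      omega
    · rw [Finset.disjoint_left]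
      intro n hn hn'
      rw [Finset.mem_Icc] at hn
      rw [Finset.mem_Ioc] at hn'
      omega
  have h3 : |∑ n ∈ Finset.Ioc K N, a n| ≤ (N:ℝ) - K := by
    calc |∑ n ∈ Finset.Ioc K N, a n| ≤ ∑ n ∈ Finset.Ioc K N, |a n| :=
          Finset.abs_sum_le_sum_abs _ _
      _ ≤ ∑ n ∈ Finset.Ioc K N, (1:ℝ) := Finset.sum_le_sum fun n _ => ha n
      _ = (N:ℝ) - K := by
          rw [Finset.sum_const, Nat.card_Ioc, nsmul_eq_mul, mul_one, Nat.cast_sub h1]
  rw [abs_div, abs_of_pos hN0, abs_div, abs_of_pos hK0, div_le_iff₀ hN0]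
  have h4 : |∑ n ∈ Finset.Icc 1 N, a n| ≤ |∑ n ∈ Finset.Icc 1 K, a n| + ((N:ℝ) - K) := by
    rw [e1]
    exact (abs_add_le _ _).trans (by linarith)
  have h5 : |∑ n ∈ Finset.Icc 1 K, a n| ≤ |∑ n ∈ Finset.Icc 1 K, a n| / K * N := by
    rw [div_mul_eq_mul_div, le_div_iff₀ hK0]
    exact mul_le_mul_of_nonneg_left hKN (abs_nonneg _)
  have h6 : (N:ℝ) - K ≤ ((M:ℝ) / K - 1) * N := by
    have h7 : (M:ℝ) / K - 1 = ((M:ℝ) - K) / K := by
      field_simp
    rw [h7, div_mul_eq_mul_div, le_div_iff₀ hK0]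
    have h8 : (N:ℝ) - K ≤ (M:ℝ) - K := by linarith
    calc ((N:ℝ) - K) * K ≤ ((M:ℝ) - K) * K := mul_le_mul_of_nonneg_right h8 hK0.le
      _ ≤ ((M:ℝ) - K) * N := mul_le_mul_of_nonneg_left hKN (by linarith)
  rw [add_mul]
  linarith

/-- from the scales `NC k` to all scales (NC (k+1) / NC k → 1) -/
lemma interpC {a : ℕ → ℝ} (ha : ∀ n, |a n| ≤ 1)
    (h : Tendsto (fun k : ℕ => (∑ n ∈ Finset.Icc 1 (NC k), a n) / (NC k : ℝ)) atTop (𝓝 0)) :
    Tendsto (fun N : ℕ => (∑ n ∈ Finset.Icc 1 N, a n) / (N : ℝ)) atTop (𝓝 0) := by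
  rw [Metric.tendsto_atTop]
  intro ε hε
  obtain ⟨K1, hK1⟩ := (Metric.tendsto_atTop.mp h) (ε / 2) (by positivity)
  obtain ⟨K2, hK2⟩ := (Metric.tendsto_atTop.mp sc_ratio) (ε / 2) (by positivity)
  obtain ⟨K3, hK3⟩ := eventually_atTop.mp (tendsto_NC.eventually_ge_atTop 2)
  set K := max K1 (max K2 K3) with hK
  refine ⟨NC K, fun N hN => ?_⟩
  have hex : ∃ k, N < NC k := by
    obtain ⟨k, hk⟩ := eventually_atTop.mp (tendsto_NC.eventually_gt_atTop N)
    exact ⟨k, hk k le_rfl⟩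
  classical
  have h1 := Nat.find_spec hex
  have h2 : K < Nat.find hex := by
    by_contra hcon
    push Not at hcon
    have := sc_mono hcon
    omega
  obtain ⟨k, hk⟩ : ∃ k, Nat.find hex = k + 1 := ⟨Nat.find hex - 1, by omega⟩
  have h3 : NC k ≤ N := by
    have := Nat.find_min hex (show k < Nat.find hex by omega)
    omega
  rw [hk] at h1
  have hkK : K ≤ k := by omega
  have hkK1 : K1 ≤ k := (le_max_left _ _).trans hkK
  have hkK2 : K2 ≤ k := ((le_max_left _ _).trans (le_max_right _ _)).trans hkK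
  have hkK3 : K3 ≤ k := ((le_max_right _ _).trans (le_max_right _ _)).trans hkK
  have h4 := sc_step ha ((by norm_num : 1 ≤ 2).trans (hK3 k hkK3)) h3 h1.le
  have h5 := hK1 k hkK1
  have h6 := hK2 k hkK2
  rw [dist_zero_right, Real.norm_eq_abs] at h5 ⊢
  rw [Real.dist_eq] at h6
  have h7 := (abs_lt.mp h6).2
  linarith

private lemma sc_compare {u : ℕ → ℝ} (hu : ∀ n, |u n| ≤ 1) {f g : ℕ → ℤˣ} {H E : Finset ℕ} {N : ℕ}
    (hN : 1 ≤ N)
    (h : ∀ n ∈ Finset.Icc 1 N, ∀ j ∈ H, f (n + j) ≠ g (n + j) → ∃ p ∈ E, p ∣ n + j) :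
    |(∑ n ∈ Finset.Icc 1 N, u n * prodSeq f H n) / (N : ℝ) -
      (∑ n ∈ Finset.Icc 1 N, u n * prodSeq g H n) / (N : ℝ)| ≤
      (∑ j ∈ H, ∑ p ∈ E, 2 * (((Finset.Icc 1 N).filter fun n => p ∣ n + j).card : ℝ)) / N := by
  have hl : (0:ℝ) < N := by exact_mod_cast hN
  have hpt : ∀ n ∈ Finset.Icc 1 N, |prodSeq f H n - prodSeq g H n| ≤
      ∑ j ∈ H, ∑ p ∈ E, (if p ∣ n + j then (2:ℝ) else 0) := by
    intro n hn
    have hnn : ∀ j ∈ H, 0 ≤ ∑ p ∈ E, (if p ∣ n + j then (2:ℝ) else 0) := fun j _ =>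
      Finset.sum_nonneg fun p _ => by split_ifs <;> norm_num
    by_cases hall : ∀ j ∈ H, f (n + j) = g (n + j)
    · have h1 : prodSeq f H n = prodSeq g H n := by
        unfold prodSeq
        exact Finset.prod_congr rfl fun j hj => by rw [hall j hj]
      rw [h1, sub_self, abs_zero]
      exact Finset.sum_nonneg hnn
    · push Not at hall
      obtain ⟨j, hj, hne⟩ := hall
      obtain ⟨p, hp, hpd⟩ := h n hn j hj hne
      have h2 : (2:ℝ) ≤ ∑ p ∈ E, (if p ∣ n + j then (2:ℝ) else 0) := by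
        have := Finset.single_le_sum (f := fun p => if p ∣ n + j then (2:ℝ) else 0)
          (fun q _ => by split_ifs <;> norm_num) hp
        simpa [hpd] using this
      calc |prodSeq f H n - prodSeq g H n| ≤ |prodSeq f H n| + |prodSeq g H n| := abs_sub _ _
        _ = 2 := by rw [abs_prodSeq, abs_prodSeq]; norm_num
        _ ≤ ∑ p ∈ E, (if p ∣ n + j then (2:ℝ) else 0) := h2
        _ ≤ _ := Finset.single_le_sum (f := fun j => ∑ p ∈ E, (if p ∣ n + j then (2:ℝ) else 0))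
            hnn hj
  rw [← sub_div, ← Finset.sum_sub_distrib, abs_div, abs_of_pos hl]
  apply div_le_div_of_nonneg_right _ hl.le
  calc |∑ n ∈ Finset.Icc 1 N, (u n * prodSeq f H n - u n * prodSeq g H n)|
      ≤ ∑ n ∈ Finset.Icc 1 N, |u n * prodSeq f H n - u n * prodSeq g H n| :=
        Finset.abs_sum_le_sum_abs _ _
    _ ≤ ∑ n ∈ Finset.Icc 1 N, (∑ j ∈ H, ∑ p ∈ E, (if p ∣ n + j then (2:ℝ) else 0)) := by
        refine Finset.sum_le_sum fun n hn => ?_
        rw [← mul_sub, abs_mul]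
        calc |u n| * |prodSeq f H n - prodSeq g H n|
            ≤ 1 * |prodSeq f H n - prodSeq g H n| :=
              mul_le_mul_of_nonneg_right (hu n) (abs_nonneg _)
          _ = |prodSeq f H n - prodSeq g H n| := one_mul _
          _ ≤ _ := hpt n hn
    _ = ∑ j ∈ H, ∑ p ∈ E, ∑ n ∈ Finset.Icc 1 N, (if p ∣ n + j then (2:ℝ) else 0) := by
        rw [Finset.sum_comm]
        refine Finset.sum_congr rfl fun j _ => ?_
        rw [Finset.sum_comm]
    _ = ∑ j ∈ H, ∑ p ∈ E, 2 * (((Finset.Icc 1 N).filter fun n => p ∣ n + j).card : ℝ) := by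
        refine Finset.sum_congr rfl fun j _ => Finset.sum_congr rfl fun p _ => ?_
        rw [← Finset.sum_filter, Finset.sum_const, nsmul_eq_mul, mul_comm]

/-- twin of `P4a7640N.compare` -/
lemma compareC (y x : SS) {u : ℕ → ℝ} (hu : ∀ n, |u n| ≤ 1) {H : Finset ℕ} {hm N T : ℕ}
    (hH : ∀ h ∈ H, h ≤ hm) (hN : 1 ≤ N) (hhm : hm ≤ N) :
    |(∑ n ∈ Finset.Icc 1 N, u n * prodSeq (rnd y) H n) / (N : ℝ) -
      FC (fun n => u n * prodSeq (rnd (sD (DS y x T))) H n) H N x| ≤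
      4 * H.card * (ES y x T N + hm / N) := by
  have hN0 : (0:ℝ) < N := by exact_mod_cast hN
  have e0 : FC (fun n => u n * prodSeq (rnd (sD (DS y x T))) H n) H N x =
      (∑ n ∈ Finset.Icc 1 N, u n *
        prodSeq (fun n => rnd (sD (DS y x T)) n * rnd x n) H n) / (N : ℝ) := by
    unfold FC prodSeq
    congr 1
    refine Finset.sum_congr rfl fun n _ => ?_
    rw [← Finset.prod_congr rfl
      (fun h _ => (sg_mul (rnd (sD (DS y x T)) (n + h)) (rnd x (n + h))).symm),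
      Finset.prod_mul_distrib]
    ring
  rw [e0]
  set E := (Finset.Ioc T (N + hm)).filter (fun p => p.Prime ∧ y p ≠ x p) with hE
  have hcmp := sc_compare hu (f := rnd y) (g := fun n => rnd (sD (DS y x T)) n * rnd x n) (H := H)
    (E := E) (N := N) hN (by
      intro n hn j hj hne
      rw [Finset.mem_Icc] at hn
      by_contra hcon
      push Not at hcon
      apply hne
      apply rnd_eq y x (T := T)
      intro p hp hpd
      by_contra hcon2
      push Not at hcon2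
      have hple : p ≤ N + hm := by
        have h1 := Nat.le_of_dvd (by omega) hpd
        have h2 := hH j hj
        omega
      exact hcon p (by
        rw [hE, Finset.mem_filter, Finset.mem_Ioc]
        exact ⟨⟨hcon2.1, hple⟩, hp, hcon2.2⟩) hpd)
  refine hcmp.trans ?_
  have hEmass : ∑ p ∈ E, (1:ℝ) / p ≤ ES y x T N + hm / N := by
    have hsub : E ⊆ (Finset.Ioc T N).filter (fun p => p.Prime ∧ y p ≠ x p) ∪
        Finset.Ioc N (N + hm) := by
      intro p hp
      rw [hE, Finset.mem_filter, Finset.mem_Ioc] at hp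
      rw [Finset.mem_union, Finset.mem_filter, Finset.mem_Ioc, Finset.mem_Ioc]
      rcases Nat.lt_or_ge N p with h1 | h1
      · exact Or.inr ⟨h1, hp.1.2⟩
      · exact Or.inl ⟨⟨hp.1.1, h1⟩, hp.2⟩
    calc ∑ p ∈ E, (1:ℝ) / p ≤ ∑ p ∈ (Finset.Ioc T N).filter (fun p => p.Prime ∧ y p ≠ x p) ∪
          Finset.Ioc N (N + hm), (1:ℝ) / p :=
          Finset.sum_le_sum_of_subset_of_nonneg hsub fun _ _ _ => by positivity
      _ ≤ ∑ p ∈ (Finset.Ioc T N).filter (fun p => p.Prime ∧ y p ≠ x p), (1:ℝ) / p +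
          ∑ p ∈ Finset.Ioc N (N + hm), (1:ℝ) / p := by
          rw [← Finset.sum_union_inter]
          have : 0 ≤ ∑ p ∈ (Finset.Ioc T N).filter (fun p => p.Prime ∧ y p ≠ x p) ∩
            Finset.Ioc N (N + hm), (1:ℝ) / p := Finset.sum_nonneg fun _ _ => by positivity
          linarith
      _ ≤ ES y x T N + hm / N := by
          apply add_le_add le_rfl
          calc ∑ p ∈ Finset.Ioc N (N + hm), (1:ℝ) / p ≤ ∑ p ∈ Finset.Ioc N (N + hm), (1:ℝ) / N := by
                refine Finset.sum_le_sum fun p hp => ?_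
                rw [Finset.mem_Ioc] at hp
                apply one_div_le_one_div_of_le hN0
                exact_mod_cast hp.1.le
            _ = hm / N := by
                rw [Finset.sum_const, Nat.card_Ioc, nsmul_eq_mul]
                simp only [Nat.add_sub_cancel_left]
                ring
  calc (∑ h ∈ H, ∑ p ∈ E, 2 * (((Finset.Icc 1 N).filter fun n => p ∣ n + h).card : ℝ)) / N
      ≤ (∑ h ∈ H, ∑ p ∈ E, 2 * ((1:ℝ) / p * (2 * (N:ℝ)))) / (N:ℝ) := by
        apply div_le_div_of_nonneg_right _ hN0.le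
        refine Finset.sum_le_sum fun h hh => Finset.sum_le_sum fun p hp => ?_
        rw [hE, Finset.mem_filter, Finset.mem_Ioc] at hp
        apply mul_le_mul_of_nonneg_left _ (by norm_num)
        refine (card_mult_le N h hp.2.1.one_lt.le).trans ?_
        have h2 : (N + h : ℝ) ≤ 2 * N := by
          have : (h:ℝ) ≤ N := by exact_mod_cast (hH h hh).trans hhm
          linarith
        calc (N + h : ℝ) / p ≤ (2 * N) / p := div_le_div_of_nonneg_right h2 (by positivity)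
          _ = _ := by ring
    _ = 4 * H.card * ∑ p ∈ E, (1:ℝ) / p := by
        rw [Finset.sum_const, nsmul_eq_mul, ← Finset.mul_sum, ← Finset.sum_mul]
        field_simp
        ring
    _ ≤ _ := by
        apply mul_le_mul_of_nonneg_left hEmass
        positivity

private lemma sc_l2_le_rt (j : ℕ) : ∀ᶠ N : ℕ in atTop, l2 N ≤ rt j N := by
  have h1 : ∀ᶠ x : ℝ in atTop, Real.log x + (j * Real.log 2 + 1) ≤ x := by
    have h2 := (Real.isLittleO_log_id_atTop).bound (show (0:ℝ) < 1 / 2 by norm_num)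
    filter_upwards [h2, eventually_ge_atTop (2 * (j * Real.log 2 + 1)), eventually_ge_atTop 1]
      with x h3 h4 h5
    simp only [id, Real.norm_eq_abs] at h3
    rw [abs_of_nonneg (Real.log_nonneg h5), abs_of_nonneg (by linarith)] at h3
    linarith
  have hr : Tendsto (fun N : ℕ => ((rt j N : ℕ) : ℝ)) atTop atTop :=
    tendsto_natCast_atTop_atTop.comp (tendsto_rt j)
  filter_upwards [hr.eventually h1, hr.eventually_ge_atTop 1, tendsto_logN.eventually_ge_atTop 3,
    eventually_ge_atTop 2] with N h2 h3 h4 h5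
  have hN0 : (0:ℝ) < N := by exact_mod_cast (by omega : 0 < N)
  have h6 : N < (rt j N + 1) ^ (2 ^ j) := (rt_lt_iff j N _).mp (Nat.lt_succ_self _)
  have h7 : (N:ℝ) < ((rt j N : ℝ) + 1) ^ (2 ^ j) := by exact_mod_cast h6
  have h8 : Real.log N ≤ 2 ^ j * Real.log ((rt j N : ℝ) + 1) := by
    have := Real.log_le_log hN0 h7.le
    rw [Real.log_pow] at this
    push_cast at this
    exact this
  have h9 : Real.log ((rt j N : ℝ) + 1) ≤ rt j N := by
    have := Real.log_le_sub_one_of_pos (show 0 < (rt j N : ℝ) + 1 by linarith)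
    linarith
  have h10 : Real.log N ≤ 2 ^ j * (rt j N : ℝ) :=
    h8.trans (mul_le_mul_of_nonneg_left h9 (by positivity))
  have h11 : Real.log (Real.log N) ≤ j * Real.log 2 + Real.log (rt j N) := by
    have := Real.log_le_log (by linarith) h10
    rw [Real.log_mul (by positivity) (by linarith), Real.log_pow] at this
    exact this
  unfold l2
  linarith

/-- twin of `P4a7640N.crit_of_slow` -/
lemma crit_of_slowC {τ : ℕ → ℝ} (hτ : ∀ p, 0 ≤ τ p) {k : ℕ} {c : ℝ} (hc : 0 < c)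
    (hk : ∀ᶠ N : ℕ in atTop, c ≤ ∑ p ∈ (Finset.Icc 1 N).filter
      (fun p : ℕ => p.Prime ∧ N < p ^ k), τ p / (p : ℝ)) {y x : SS}
    (hyx : Tendsto (fun N : ℕ => ∑ p ∈ (Finset.Icc 1 N).filter
      (fun p : ℕ => p.Prime ∧ N < p ^ 2 ∧ y p ≠ x p), (1:ℝ) / p) atTop (𝓝 0)) :
    CritC τ y x := by
  intro V δ hδ
  obtain ⟨N₁, hN₁⟩ := eventually_atTop.mp hk
  have h1 : ∀ M ≥ N₁, c ≤ MS τ (rt k M) M := by
    intro M hM
    refine (hN₁ M hM).trans ?_
    rw [MS_window]
    apply Finset.sum_le_sum_of_subset_of_nonneg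
    · intro p hp
      rw [Finset.mem_filter] at hp ⊢
      refine ⟨hp.1, hp.2.1, lt_of_lt_of_le hp.2.2 ?_⟩
      exact Nat.pow_le_pow_right hp.2.1.pos (Nat.lt_two_pow_self).le
    · intro p _ _
      exact div_nonneg (hτ p) (Nat.cast_nonneg p)
  obtain ⟨J, hJ⟩ := exists_nat_ge (V / c)
  have hJV : V ≤ J * c := by
    rw [div_le_iff₀ hc] at hJ
    exact hJ
  have hδ' : 0 < δ / ((J * k : ℕ) + 1) := by positivity
  have h2 : ∀ᶠ M : ℕ in atTop, ES y x (rt 1 M) M ≤ δ / ((J * k : ℕ) + 1) := by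
    filter_upwards [hyx.eventually (eventually_le_nhds hδ')] with M hM
    rw [ES_window]
    exact hM
  obtain ⟨N₂, hN₂⟩ := eventually_atTop.mp h2
  filter_upwards [sc_l2_le_rt (J * k), (tendsto_rt (J * k)).eventually_ge_atTop (max N₁ N₂)]
    with N h3 h4
  refine ⟨rt (J * k) N, h3, ?_, ?_⟩
  · exact hJV.trans (MS_many h1 N J ((le_max_left _ _).trans h4))
  · refine (ES_many hN₂ N (J * k) ((le_max_right _ _).trans h4)).trans ?_
    rw [← mul_div_assoc, div_le_iff₀ (by positivity)]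
    nlinarith

end Pool.Agent.Lib.P4a7640N2
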