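import Mathlib
import Pool.Agent.Lib.P4a7640N2.ConcC
import Pool.Agent.Lib.P4a7640N2.MeanC
import Pool.Agent.Lib.P4a7640N2.ScaleC

/-!
# Almost sure vanishing of correlations for all nearby multiplicative functions, natural density
-/

open MeasureTheory ProbabilityTheory Filter Topology
open scoped ENNReal

namespace Pool.Agent.Lib.P4a7640N2

open Pool.Agent.Lib.P4a7640 Pool.Agent.Lib.P4a7640N Pool.Agent.Lib.P4a7640Ces

variable {ν : ℕ → Measure ℤˣ} [∀ p, IsProbabilityMeasure (ν p)]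

lemma ae_devC {θ : ℕ → ℝ} (hθ : ∀ p, θ p = (ν p).real {-1}) {u : ℕ → ℝ} (hu : ∀ n, |u n| ≤ 1)
    {H : Finset ℕ} (hne : H.Nonempty) {η : ℝ} (hη : 0 < η) :
    ∀ᵐ x ∂(Measure.infinitePi ν), ∀ᶠ k : ℕ in atTop, x ∉ devKC θ u H η k := by
  set hm := H.sup id with hmd
  have hH : ∀ h ∈ H, h ≤ hm := fun h hh => Finset.le_sup (f := id) hh
  have hc0 : (0:ℝ) < H.card := by exact_mod_cast hne.card_pos
  have hA0 : 0 < AK H.card η := by unfold AK; positivity
  have hbound : ∀ᶠ k : ℕ in atTop, ‖(Measure.infinitePi ν).real (devKC θ u H η k)‖ ≤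
      4 * (1 / (k:ℝ)^2) := by
    have hy : Tendsto (fun k : ℕ => AK H.card η * (2 * l2 (NC k))) atTop atTop :=
      ((tendsto_l2.comp tendsto_NC).const_mul_atTop two_pos).const_mul_atTop hA0
    filter_upwards [hy.eventually_ge_atTop 1, tendsto_NC.eventually_ge_atTop (hm + 1),
      eventually_ge_atTop 1] with k h1 h3 h4
    rw [Real.norm_of_nonneg measureReal_nonneg]
    have h0 : 2 * l2 (NC k) ≤ (⌈2 * l2 (NC k)⌉₊ : ℝ) := Nat.le_ceil _
    have h5 : AK H.card η * (2 * l2 (NC k)) ≤ AK H.card η * (⌈2 * l2 (NC k)⌉₊ : ℝ) :=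
      mul_le_mul_of_nonneg_left h0 hA0.le
    refine (devUC_le hθ hu hne (by omega) (by omega) hH hη (by linarith)).trans ?_
    apply mul_le_mul_of_nonneg_left _ (by norm_num)
    have hk0 : (0:ℝ) < k := by exact_mod_cast h4
    have h6 : Real.log k / 2 ≤ l2 (NC k) := half_log_le_l2_NC h4
    have h7 : 1 / (k:ℝ)^2 = Real.exp (-(2 * Real.log k)) := by
      rw [Real.exp_neg, ← Real.log_rpow hk0, Real.exp_log (by positivity)]
      norm_num
    rw [h7]
    apply Real.exp_le_exp.mpr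
    rw [neg_le_neg_iff]
    linarith
  have hsum : Summable fun k => (Measure.infinitePi ν).real (devKC θ u H η k) :=
    Summable.of_norm_bounded_eventually_nat ((Real.summable_one_div_nat_pow.mpr
      (by norm_num : 1 < 2)).mul_left 4) hbound
  have hne_top : ∑' k, (Measure.infinitePi ν) (devKC θ u H η k) ≠ ∞ := by
    have h1 := hsum.tsum_ofReal_ne_top
    have h2 : (fun k => ENNReal.ofReal ((Measure.infinitePi ν).real (devKC θ u H η k))) =
        fun k => (Measure.infinitePi ν) (devKC θ u H η k) := by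
      funext k
      exact ofReal_measureReal
    rwa [h2] at h1
  exact ae_eventually_notMem hne_top

/-- the deterministic core -/
lemma eventually_smallC {θ : ℕ → ℝ} (hθ0 : ∀ p, 0 ≤ θ p) (hθ1 : ∀ p, θ p ≤ 1) {u : ℕ → ℝ}
    (hu : ∀ n, |u n| ≤ 1) {H : Finset ℕ} (hne : H.Nonempty) {η : ℝ} (hη : 0 < η) (hη1 : η ≤ 1)
    {x : SS} (hx : ∀ᶠ k : ℕ in atTop, x ∉ devKC θ u H η k) {y : SS}
    (hc : CritC (fun p => min (θ p) (1 - θ p)) y x) :
    ∀ᶠ k : ℕ in atTop, |(∑ n ∈ Finset.Icc 1 (NC k), u n * prodSeq (rnd y) H n) / (NC k : ℝ)| ≤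
      3 * η := by
  set τ : ℕ → ℝ := fun p => min (θ p) (1 - θ p) with hτd
  have hτ : ∀ p, 0 ≤ τ p := fun p => le_min (hθ0 p) (by linarith [hθ1 p])
  have hτ1 : ∀ p, τ p ≤ 1 := fun p => (min_le_left _ _).trans (hθ1 p)
  set hm := H.sup id with hmd
  have hH : ∀ h ∈ H, h ≤ hm := fun h hh => Finset.le_sup (f := id) hh
  have hc1 : (1:ℝ) ≤ H.card := by exact_mod_cast hne.card_pos
  have hA1 : 1 ≤ AK H.card η := by
    unfold AK
    rw [le_div_iff₀ (by positivity)]
    nlinarith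
  obtain ⟨V₀, hV₀⟩ := exists_meanC H hne hH hA1 hη
  have hδ0 : 0 < η / (8 * H.card) := by positivity
  have hcN := hc (max V₀ 1 + 2) (η / (8 * H.card)) hδ0
  have h2 : Tendsto (fun N : ℕ => (hm:ℝ) / N) atTop (𝓝 0) :=
    tendsto_natCast_atTop_atTop.const_div_atTop _
  have hev : ∀ᶠ N : ℕ in atTop, (∃ T : ℕ, l2 N ≤ T ∧ max V₀ 1 + 2 ≤ MS τ T N ∧
      ES y x T N ≤ η / (8 * H.card)) ∧ (∀ T : ℕ, 2 * hm + 1 ≤ T → V₀ ≤ MS τ T N →
      ∀ w : ℕ → ℝ, (∀ n, |w n| ≤ 1) → ∀ x : SS,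
        |AVL θ (PL hm N (AK H.card η * T)).toList (FC w H N) x| ≤ η) ∧
      (hm:ℝ) / N ≤ η / (8 * H.card) ∧ hm + 1 ≤ N ∧ 2 * (hm:ℝ) + 1 ≤ l2 N := by
    filter_upwards [hcN, hV₀, h2.eventually (eventually_le_nhds hδ0), eventually_ge_atTop (hm + 1),
      tendsto_l2.eventually_ge_atTop (2 * hm + 1)] with N a1 a2 a4 a5 a6
    exact ⟨a1, a2 θ hθ0 hθ1, a4, a5, a6⟩
  filter_upwards [hx, tendsto_NC.eventually hev] with k hxk hk
  obtain ⟨⟨T, hT1, hT2, hT3⟩, hmean, hmN, hN2, hl3⟩ := hk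
  set N := NC k with hN
  have hTr : 2 * (hm:ℝ) + 1 ≤ T := hl3.trans hT1
  have hTn : 2 * hm + 1 ≤ T := by exact_mod_cast hTr
  have hTN : T ≤ N := by
    by_contra hcon
    push Not at hcon
    have h3 : MS τ T N = 0 := by
      unfold MS
      rw [Finset.Ioc_eq_empty (by omega)]
      simp
    have h4 : (1:ℝ) ≤ max V₀ 1 := le_max_right _ _
    linarith
  have hMS := MS_double hτ hτ1 (T := T) (by omega) N
  have hV : V₀ ≤ MS τ (2 * T) N := by
    have : V₀ ≤ max V₀ 1 := le_max_left _ _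
    linarith
  have hcast : ((2 * T : ℕ) : ℝ) = 2 * (T:ℝ) := by push_cast; ring
  have hceil : ⌈2 * l2 N⌉₊ ≤ 2 * T := by
    apply Nat.ceil_le.mpr
    rw [hcast]
    linarith
  set D := DS y x (2 * T) with hD
  have hw : ∀ n, |u n * prodSeq (rnd (sD D)) H n| ≤ 1 := fun n => by
    rw [abs_mul, abs_prodSeq, mul_one]
    exact hu n
  have hmean' := hmean (2 * T) (by omega) hV (fun n => u n * prodSeq (rnd (sD D)) H n) hw x
  have hdev : |FC (fun n => u n * prodSeq (rnd (sD D)) H n) H N x -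
      AVL θ (PL hm N (AK H.card η * (2 * T : ℕ))).toList
        (FC (fun n => u n * prodSeq (rnd (sD D)) H n) H N) x| < η := by
    by_contra hcon
    push Not at hcon
    apply hxk
    unfold devKC devUC
    rw [Set.mem_iUnion₂]
    refine ⟨2 * T, ?_, ?_⟩
    · rw [Finset.mem_Icc]
      exact ⟨hceil, by omega⟩
    · rw [Set.mem_iUnion₂]
      refine ⟨D, ?_, hcon⟩
      rw [Finset.mem_powerset, hD]
      exact Finset.filter_subset _ _
  have hcmp := compareC y x hu (T := 2 * T) hH (show 1 ≤ N by omega) (show hm ≤ N by omega)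
  have hES : ES y x (2 * T) N ≤ η / (8 * H.card) := (ES_anti y x (by omega) N).trans hT3
  have hbound : 4 * (H.card:ℝ) * (ES y x (2 * T) N + hm / N) ≤ η := by
    calc 4 * (H.card:ℝ) * (ES y x (2 * T) N + hm / N)
        ≤ 4 * (H.card:ℝ) * (η / (8 * H.card) + η / (8 * H.card)) := by
          apply mul_le_mul_of_nonneg_left (by linarith) (by positivity)
      _ = η := by field_simp; norm_num
  have e1 := abs_le.mp (hcmp.trans hbound)
  have e2 := abs_lt.mp hdev
  have e3 := abs_le.mp hmean'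
  rw [abs_le]
  constructor <;> linarith [e1.1, e1.2, e2.1, e2.2, e3.1, e3.2]

/-- the indicator of a residue class -/
def uR (R b n : ℕ) : ℝ := if n % R = b then 1 else 0

lemma abs_uR_le (R b n : ℕ) : |uR R b n| ≤ 1 := by
  unfold uR
  split_ifs <;> simp

/-- almost surely, all nearby completely multiplicative functions have vanishing correlations -/
theorem ae_allC {θ : ℕ → ℝ} (hθ : ∀ p, θ p = (ν p).real {-1}) :
    ∀ᵐ x ∂(Measure.infinitePi ν), ∀ y : SS, CritC (fun p => min (θ p) (1 - θ p)) y x →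
      VanC (fun _ => 1) (rnd y) := by
  have hθ0 : ∀ p, 0 ≤ θ p := fun p => by rw [hθ]; exact measureReal_nonneg
  have hθ1 : ∀ p, θ p ≤ 1 := fun p => by rw [hθ]; exact measureReal_le_one
  have h1 : ∀ᵐ x ∂(Measure.infinitePi ν), ∀ H : Finset ℕ, ∀ j R b : ℕ, H.Nonempty →
      ∀ᶠ k : ℕ in atTop, x ∉ devKC θ (uR R b) H (1 / ((j:ℝ) + 1)) k := by
    rw [ae_all_iff]
    intro H
    rw [ae_all_iff]
    intro j
    rw [ae_all_iff]
    intro R
    rw [ae_all_iff]
    intro b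
    by_cases hne : H.Nonempty
    · filter_upwards [ae_devC hθ (u := uR R b) (abs_uR_le R b) hne (η := 1 / ((j:ℝ) + 1))
        (by positivity)] with x hx _
      exact hx
    · exact Eventually.of_forall fun x hx => absurd hx hne
  filter_upwards [h1] with x hx y hy H hne R b
  have key : Tendsto (fun N : ℕ => (∑ n ∈ Finset.Icc 1 N, uR R b n * prodSeq (rnd y) H n) / (N:ℝ))
      atTop (𝓝 0) := by
    apply interpC fun n => by
      rw [abs_mul, abs_prodSeq, mul_one]
      exact abs_uR_le R b n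
    rw [Metric.tendsto_atTop]
    intro ε hε
    obtain ⟨j, hj⟩ := exists_nat_one_div_lt (show 0 < ε / 4 by positivity)
    have hj1 : 1 / ((j:ℝ) + 1) ≤ 1 := by
      rw [div_le_one (by positivity)]
      have : (0:ℝ) ≤ j := Nat.cast_nonneg j
      linarith
    have h2 := eventually_smallC hθ0 hθ1 (abs_uR_le R b) hne (η := 1 / ((j:ℝ) + 1))
      (by positivity) hj1 (hx H j R b hne) hy
    obtain ⟨k0, hk0⟩ := eventually_atTop.mp h2
    refine ⟨k0, fun k hk => ?_⟩
    rw [dist_zero_right, Real.norm_eq_abs]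
    have := hk0 k hk
    linarith
  refine key.congr fun N => ?_
  congr 1
  refine Finset.sum_congr rfl fun n _ => ?_
  unfold uR
  rw [one_mul]

end Pool.Agent.Lib.P4a7640N2
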