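import Mathlib
import Pool.Agent.Lib.P4a7640N2.AeC
import Pool.Agent.Lib.P4a7640N.Bdd

/-!
# Almost surely all nearby multiplicative functions satisfy Chowla's conjecture in natural density
-/

open MeasureTheory ProbabilityTheory Filter Topology

namespace Pool.Agent.Lib.P4a7640N2

open Pool.Agent.Lib.P4a7640 Pool.Agent.Lib.P4a7640N Pool.Agent.Lib.P4a7640Ces

lemma uR_zero (b n : ℕ) : uR 0 b n = if n = b then 1 else 0 := by
  unfold uR
  rw [Nat.mod_zero]

lemma uR_nonneg (R b n : ℕ) : 0 ≤ uR R b n := by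
  unfold uR
  split_ifs <;> norm_num

lemma uR_le_one (R b n : ℕ) : uR R b n ≤ 1 := by
  unfold uR
  split_ifs <;> norm_num

lemma sum_point_le (b N : ℕ) : ∑ n ∈ Finset.Icc 1 N, uR 0 b n ≤ 1 := by
  have h1 : ∀ n ∈ Finset.Icc 1 N, uR 0 b n = if n = b then 1 else 0 := fun n _ => uR_zero b n
  rw [Finset.sum_congr rfl h1, Finset.sum_ite_eq']
  split_ifs <;> norm_num

lemma uR_add (R b n R' : ℕ) : uR R b (n + R * R') = uR R b n := by
  unfold uR
  rw [Nat.add_mul_mod_self_left]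

/-- from all residue classes to weights supported on a residue class -/
lemma vanC_uR {g : ℕ → ℤˣ} (hv : VanC (fun _ => 1) g) (R b : ℕ) : VanC (uR R b) g := by
  intro H hne R' b'
  have e0 : ∀ n, uR R b n * (if n % R' = b' then 1 else 0) * prodSeq g H n =
      uR R b n * uR R' b' n * prodSeq g H n := fun n => rfl
  have hpoint : ∀ c : ℕ, (∀ n, uR R b n * uR R' b' n ≤ uR 0 c n) →
      Tendsto (fun N : ℕ => (∑ n ∈ Finset.Icc 1 N,
        uR R b n * (if n % R' = b' then 1 else 0) * prodSeq g H n) / (N:ℝ)) atTop (𝓝 0) := by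
    intro c hc
    apply squeeze_zero_norm' _ tendsto_one_div_atTop_nhds_zero_nat
    filter_upwards [eventually_ge_atTop 1] with N hN
    have hN0 : (0:ℝ) < N := by exact_mod_cast hN
    rw [Real.norm_eq_abs, abs_div, abs_of_pos hN0]
    apply div_le_div_of_nonneg_right _ hN0.le
    refine (Finset.abs_sum_le_sum_abs _ _).trans (le_trans (Finset.sum_le_sum fun n _ => ?_)
      (sum_point_le c N))
    rw [e0, abs_mul, abs_prodSeq, mul_one, abs_of_nonneg (mul_nonneg (uR_nonneg _ _ _)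
      (uR_nonneg _ _ _))]
    exact hc n
  rcases Nat.eq_zero_or_pos R with rfl | hR
  · refine hpoint b fun n => ?_
    exact mul_le_of_le_one_right (uR_nonneg _ _ _) (uR_le_one _ _ _)
  rcases Nat.eq_zero_or_pos R' with rfl | hR'
  · refine hpoint b' fun n => ?_
    exact mul_le_of_le_one_left (uR_nonneg _ _ _) (uR_le_one _ _ _)
  have h1 := van_periodic hv hne (P := fun n => uR R b n * uR R' b' n) (R := R * R')
    (Nat.mul_pos hR hR') (fun n => by
      show uR R b (n + R * R') * uR R' b' (n + R * R') = uR R b n * uR R' b' n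
      rw [uR_add, mul_comm R R', uR_add])
  refine h1.congr fun N => ?_
  congr 1
  refine Finset.sum_congr rfl fun n _ => ?_
  rw [e0, one_mul]

/-- from `rnd f` to the multiplicative function `f` -/
lemma vanC_of_rnd {f : ℕ → ℤˣ} (hf : MultS f) (hv : VanC (fun _ => 1) (rnd f)) :
    VanC (fun _ => 1) f := by
  intro H hne R b
  have h1 := van_mult hf (abs_uR_le R b) (vanC_uR hv R b) hne
  refine h1.congr fun N => ?_
  congr 1
  refine Finset.sum_congr rfl fun n _ => ?_
  rw [one_mul]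
  rfl

/-- on the product space -/
lemma vanC_prod {ν : ℕ → Measure ℤˣ} [∀ p, IsProbabilityMeasure (ν p)] :
    ∀ᵐ x ∂(Measure.infinitePi ν), ∀ f : ℕ → ℤˣ, MultS f →
      CritC (fun p => min ((ν p).real {-1}) (1 - (ν p).real {-1})) f x → VanC (fun _ => 1) f := by
  filter_upwards [ae_allC (ν := ν) (θ := fun p => (ν p).real {-1}) (fun p => rfl)] with x hx f hf hc
  exact vanC_of_rnd hf (hx f hc)

/-- on a general probability space -/
lemma vanC_indep {Ω : Type*} [MeasurableSpace Ω] {P : Measure Ω} [IsProbabilityMeasure P]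
    {ε : ℕ → Ω → ℤˣ} (hε : ∀ p, Measurable (ε p)) (hind : iIndepFun ε P) :
    ∀ᵐ ω ∂P, ∀ f : ℕ → ℤˣ, MultS f →
      CritC (fun p => min (P.real {ω | ε p ω = 1}) (P.real {ω | ε p ω = -1})) f
        (fun p => ε p ω) → VanC (fun _ => 1) f := by
  set ν : ℕ → Measure ℤˣ := fun p => P.map (ε p) with hν
  have : ∀ p, IsProbabilityMeasure (ν p) := fun p =>
    Measure.isProbabilityMeasure_map (hε p).aemeasurable
  have hmap := (iIndepFun_iff_map_fun_eq_infinitePi_map (fun p => hε p)).mp hind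
  have hreal : ∀ p, (ν p).real {-1} = P.real {ω | ε p ω = -1} := by
    intro p
    rw [hν]
    rw [map_measureReal_apply (hε p) (measurableSet_singleton _)]
    rfl
  have hone : ∀ p, 1 - (ν p).real {-1} = P.real {ω | ε p ω = 1} := by
    intro p
    have hms : MeasurableSet {ω | ε p ω = -1} := hε p (measurableSet_singleton _)
    rw [hreal, ← probReal_compl_eq_one_sub hms]
    congr 1
    ext ω
    simp only [Set.mem_compl_iff, Set.mem_ofPred_eq]
    rcases Int.units_eq_one_or (ε p ω) with h | h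
    · rw [h]
      simp
    · rw [h]
      simp
  have hτ : (fun p => min ((ν p).real {-1}) (1 - (ν p).real {-1})) =
      fun p => min (P.real {ω | ε p ω = 1}) (P.real {ω | ε p ω = -1}) := by
    funext p
    rw [hone, hreal, min_comm]
  have h1 := vanC_prod (ν := ν)
  rw [hτ, ← hmap] at h1
  exact ae_of_ae_map (measurable_pi_lambda _ hε).aemeasurable h1

/-- twisting the signs by a fixed function -/
lemma vanC_twist {Ω : Type*} [MeasurableSpace Ω] {P : Measure Ω} [IsProbabilityMeasure P]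
    {ε : ℕ → Ω → ℤˣ} (hε : ∀ p, Measurable (ε p)) (hind : iIndepFun ε P) (g : ℕ → ℤˣ) :
    ∀ᵐ ω ∂P, ∀ f : ℕ → ℤˣ, MultS f →
      CritC (fun p => min (P.real {ω | ε p ω = 1}) (P.real {ω | ε p ω = -1})) f
        (fun p => g p * ε p ω) → VanC (fun _ => 1) f := by
  have hm : ∀ p, Measurable fun u : ℤˣ => g p * u := fun p => measurable_of_countable _
  have hε' : ∀ p, Measurable (fun ω => g p * ε p ω) := fun p => (hm p).comp (hε p)
  have hind' : iIndepFun (fun p ω => g p * ε p ω) P := hind.comp (fun p u => g p * u) hm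
  have h1 := vanC_indep hε' hind'
  have hτ : (fun p => min (P.real {ω | g p * ε p ω = 1}) (P.real {ω | g p * ε p ω = -1})) =
      fun p => min (P.real {ω | ε p ω = 1}) (P.real {ω | ε p ω = -1}) := by
    funext p
    rcases Int.units_eq_one_or (g p) with h | h
    · rw [h]
      simp only [one_mul]
    · rw [h]
      have e1 : {ω | -1 * ε p ω = 1} = {ω | ε p ω = -1} := by
        ext ω
        simp only [Set.mem_ofPred_eq]
        rcases Int.units_eq_one_or (ε p ω) with h' | h' <;> rw [h'] <;> decide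
      have e2 : {ω | -1 * ε p ω = -1} = {ω | ε p ω = 1} := by
        ext ω
        simp only [Set.mem_ofPred_eq]
        rcases Int.units_eq_one_or (ε p ω) with h' | h' <;> rw [h'] <;> decide
      rw [e1, e2, min_comm]
  rw [hτ] at h1
  exact h1

/-- `CritC` implies `Crit` -/
lemma crit_of_critC {τ : ℕ → ℝ} {y x : SS} (h : CritC τ y x) : Crit τ y x := by
  intro V δ hδ
  filter_upwards [h V δ hδ, tendsto_l2.eventually_gt_atTop 0] with N hN h0
  obtain ⟨T, h1, h2, h3⟩ := hN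
  refine ⟨T, le_trans ?_ h1, h2, h3⟩
  unfold l3 l2 at *
  exact (Real.log_le_sub_one_of_pos h0).trans (by linarith)

/-- Chowla's conjecture in natural density -/
def ChowlaN (f : ℕ → ℤˣ) : Prop :=
  ∀ H : Finset ℕ, H.Nonempty →
    Tendsto (fun N : ℕ => (∑ n ∈ Finset.Icc 1 N, ∏ h ∈ H, ((f (n + h) : ℤ) : ℝ)) / (N : ℝ))
      atTop (𝓝 0)

lemma chowlaN_of_vanC {f : ℕ → ℤˣ} (hv : VanC (fun _ => 1) f) : ChowlaN f := by
  intro H hne
  have h1 := hv H hne 1 0
  refine h1.congr fun N => ?_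
  congr 1
  refine Finset.sum_congr rfl fun n _ => ?_
  rw [Nat.mod_one, if_pos rfl, one_mul, one_mul]
  rfl

/-- the main theorem, natural density -/
theorem mainC {Ω : Type*} [MeasurableSpace Ω] {P : Measure Ω} [IsProbabilityMeasure P]
    {ε : ℕ → Ω → ℤˣ} (hε : ∀ p, Measurable (ε p)) (hind : iIndepFun ε P) (g : ℕ → ℕ → ℤˣ) :
    ∀ᵐ ω ∂P, ∀ i : ℕ, ∀ f : ℕ → ℤˣ, MultS f →
      CritC (fun p => min (P.real {ω | ε p ω = 1}) (P.real {ω | ε p ω = -1})) f
        (fun p => g i p * ε p ω) →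
        ChowlaN f ∧ VanC (fun _ => 1) f ∧ Aperiodic f ∧ FairSystem f := by
  filter_upwards [main (P := P) hε hind g,
    ae_all_iff.mpr fun i => vanC_twist hε hind (g i)] with ω h1 h2 i f hf hc
  have h3 := h2 i f hf hc
  exact ⟨chowlaN_of_vanC h3, h3, h1 i f hf (crit_of_critC hc)⟩

/-- the slow class: window mass bounded below -/
theorem ces_slow {Ω : Type*} [MeasurableSpace Ω] {P : Measure Ω} [IsProbabilityMeasure P]
    {ε : ℕ → Ω → ℤˣ} (hε : ∀ p, Measurable (ε p)) (hind : iIndepFun ε P) (g : ℕ → ℕ → ℤˣ)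
    (hk : ∃ k : ℕ, ∃ c : ℝ, 0 < c ∧ ∀ᶠ N : ℕ in atTop,
        c ≤ ∑ p ∈ (Finset.Icc 1 N).filter (fun p : ℕ => p.Prime ∧ N < p ^ k),
          min (P.real {ω | ε p ω = 1}) (P.real {ω | ε p ω = -1}) / (p : ℝ)) :
    ∀ᵐ ω ∂P, ∀ i : ℕ, ∀ f : ℕ → ℤˣ, MultS f →
      Tendsto (fun N : ℕ => ∑ p ∈ (Finset.Icc 1 N).filter
        (fun p : ℕ => p.Prime ∧ N < p ^ 2 ∧ f p ≠ g i p * ε p ω), (1 : ℝ) / p) atTop (𝓝 0) →
      ChowlaN f ∧ VanC (fun _ => 1) f ∧ Aperiodic f ∧ FairSystem f := by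
  obtain ⟨k, c, hc, hk⟩ := hk
  filter_upwards [mainC (P := P) hε hind g] with ω hω i f hf hslow
  exact hω i f hf (crit_of_slowC (fun p => le_min measureReal_nonneg measureReal_nonneg) hc hk hslow)

/-- the slow class: biases bounded below -/
theorem ces_slow_bdd {Ω : Type*} [MeasurableSpace Ω] {P : Measure Ω} [IsProbabilityMeasure P]
    {ε : ℕ → Ω → ℤˣ} (hε : ∀ p, Measurable (ε p)) (hind : iIndepFun ε P) (g : ℕ → ℕ → ℤˣ)
    {δ : ℝ} (hδ : 0 < δ)
    (hb : ∀ p : ℕ, p.Prime → δ ≤ P.real {ω | ε p ω = 1} ∧ δ ≤ P.real {ω | ε p ω = -1}) :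
    ∀ᵐ ω ∂P, ∀ i : ℕ, ∀ f : ℕ → ℤˣ, MultS f →
      Tendsto (fun N : ℕ => ∑ p ∈ (Finset.Icc 1 N).filter
        (fun p : ℕ => p.Prime ∧ N < p ^ 2 ∧ f p ≠ g i p * ε p ω), (1 : ℝ) / p) atTop (𝓝 0) →
      ChowlaN f ∧ VanC (fun _ => 1) f ∧ Aperiodic f ∧ FairSystem f :=
  ces_slow hε hind g (slow_of_bdd
    (m := fun p => min (P.real {ω | ε p ω = 1}) (P.real {ω | ε p ω = -1})) hδ
    (fun p hp => le_min (hb p hp).1 (hb p hp).2))

end Pool.Agent.Lib.P4a7640N2
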