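import Mathlib
import Pool.Agent.Lib.P4a7640N2.FinalC

/-!
# Natural density with countably many fixed bounded weights
-/

open MeasureTheory ProbabilityTheory Filter Topology
open scoped ENNReal

namespace Pool.Agent.Lib.P4a7640N2

open Pool.Agent.Lib.P4a7640 Pool.Agent.Lib.P4a7640N Pool.Agent.Lib.P4a7640Ces

/-- Chowla's conjecture in natural density with the weight `w` -/
def ChowlaW (w : ℕ → ℝ) (f : ℕ → ℤˣ) : Prop :=
  ∀ H : Finset ℕ, H.Nonempty →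
    Tendsto (fun N : ℕ => (∑ n ∈ Finset.Icc 1 N, w n * ∏ h ∈ H, ((f (n + h) : ℤ) : ℝ)) / (N : ℝ))
      atTop (𝓝 0)

lemma abs_wu_le {w : ℕ → ℝ} (hw : ∀ n, |w n| ≤ 1) (R b n : ℕ) : |w n * uR R b n| ≤ 1 := by
  rw [abs_mul]
  exact mul_le_one₀ (hw n) (abs_nonneg _) (abs_uR_le R b n)

section prod

variable {ν : ℕ → Measure ℤˣ} [∀ p, IsProbabilityMeasure (ν p)]

theorem ae_allW {θ : ℕ → ℝ} (hθ : ∀ p, θ p = (ν p).real {-1}) {w : ℕ → ℕ → ℝ}
    (hw : ∀ i n, |w i n| ≤ 1) :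
    ∀ᵐ x ∂(Measure.infinitePi ν), ∀ i : ℕ, ∀ y : SS,
      CritC (fun p => min (θ p) (1 - θ p)) y x → VanC (w i) (rnd y) := by
  have hθ0 : ∀ p, 0 ≤ θ p := fun p => by rw [hθ]; exact measureReal_nonneg
  have hθ1 : ∀ p, θ p ≤ 1 := fun p => by rw [hθ]; exact measureReal_le_one
  have h1 : ∀ᵐ x ∂(Measure.infinitePi ν), ∀ i : ℕ, ∀ H : Finset ℕ, ∀ j R b : ℕ, H.Nonempty →
      ∀ᶠ k : ℕ in atTop,
        x ∉ devKC θ (fun n => w i n * uR R b n) H (1 / ((j:ℝ) + 1)) k := by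
    rw [ae_all_iff]
    intro i
    rw [ae_all_iff]
    intro H
    rw [ae_all_iff]
    intro j
    rw [ae_all_iff]
    intro R
    rw [ae_all_iff]
    intro b
    by_cases hne : H.Nonempty
    · filter_upwards [ae_devC hθ (u := fun n => w i n * uR R b n) (abs_wu_le (hw i) R b) hne
        (η := 1 / ((j:ℝ) + 1)) (by positivity)] with x hx _
      exact hx
    · exact Eventually.of_forall fun x hx => absurd hx hne
  filter_upwards [h1] with x hx i y hy H hne R b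
  have key : Tendsto (fun N : ℕ => (∑ n ∈ Finset.Icc 1 N,
      w i n * uR R b n * prodSeq (rnd y) H n) / (N:ℝ)) atTop (𝓝 0) := by
    apply interpC fun n => by
      rw [abs_mul, abs_prodSeq, mul_one]
      exact abs_wu_le (hw i) R b n
    rw [Metric.tendsto_atTop]
    intro ε hε
    obtain ⟨j, hj⟩ := exists_nat_one_div_lt (show 0 < ε / 4 by positivity)
    have hj1 : 1 / ((j:ℝ) + 1) ≤ 1 := by
      rw [div_le_one (by positivity)]
      have : (0:ℝ) ≤ j := Nat.cast_nonneg j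
      linarith
    have h2 := eventually_smallC hθ0 hθ1 (abs_wu_le (hw i) R b) hne (η := 1 / ((j:ℝ) + 1))
      (by positivity) hj1 (hx i H j R b hne) hy
    obtain ⟨k0, hk0⟩ := eventually_atTop.mp h2
    refine ⟨k0, fun k hk => ?_⟩
    rw [dist_zero_right, Real.norm_eq_abs]
    have := hk0 k hk
    linarith
  exact key

/-- on the product space -/
lemma vanW_prod {w : ℕ → ℕ → ℝ} (hw : ∀ i n, |w i n| ≤ 1) :
    ∀ᵐ x ∂(Measure.infinitePi ν), ∀ i : ℕ, ∀ f : ℕ → ℤˣ, MultS f →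
      CritC (fun p => min ((ν p).real {-1}) (1 - (ν p).real {-1})) f x → ChowlaW (w i) f := by
  filter_upwards [ae_allW (ν := ν) (θ := fun p => (ν p).real {-1}) (fun p => rfl) hw]
    with x hx i f hf hc H hne
  exact van_mult hf (hw i) (hx i f hc) hne

end prod

/-- on a general probability space -/
lemma vanW_indep {Ω : Type*} [MeasurableSpace Ω] {P : Measure Ω} [IsProbabilityMeasure P]
    {ε : ℕ → Ω → ℤˣ} (hε : ∀ p, Measurable (ε p)) (hind : iIndepFun ε P) {w : ℕ → ℕ → ℝ}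
    (hw : ∀ i n, |w i n| ≤ 1) :
    ∀ᵐ ω ∂P, ∀ i : ℕ, ∀ f : ℕ → ℤˣ, MultS f →
      CritC (fun p => min (P.real {ω | ε p ω = 1}) (P.real {ω | ε p ω = -1})) f
        (fun p => ε p ω) → ChowlaW (w i) f := by
  set ν : ℕ → Measure ℤˣ := fun p => P.map (ε p) with hν
  have : ∀ p, IsProbabilityMeasure (ν p) := fun p =>
    Measure.isProbabilityMeasure_map (hε p).aemeasurable
  have hmap := (iIndepFun_iff_map_fun_eq_infinitePi_map (fun p => hε p)).mp hind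
  have hreal : ∀ p, (ν p).real {-1} = P.real {ω | ε p ω = -1} := by
    intro p
    rw [hν]
    rw [map_measureReal_apply (hε p) (measurableSet_singleton _)]
    rfl
  have hone : ∀ p, 1 - (ν p).real {-1} = P.real {ω | ε p ω = 1} := by
    intro p
    have hms : MeasurableSet {ω | ε p ω = -1} := hε p (measurableSet_singleton _)
    rw [hreal, ← probReal_compl_eq_one_sub hms]
    congr 1
    ext ω
    simp only [Set.mem_compl_iff, Set.mem_ofPred_eq]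
    rcases Int.units_eq_one_or (ε p ω) with h | h
    · rw [h]
      simp
    · rw [h]
      simp
  have hτ : (fun p => min ((ν p).real {-1}) (1 - (ν p).real {-1})) =
      fun p => min (P.real {ω | ε p ω = 1}) (P.real {ω | ε p ω = -1}) := by
    funext p
    rw [hone, hreal, min_comm]
  have h1 := vanW_prod (ν := ν) hw
  rw [hτ, ← hmap] at h1
  exact ae_of_ae_map (measurable_pi_lambda _ hε).aemeasurable h1

/-- twisting the signs by a fixed function -/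
lemma vanW_twist {Ω : Type*} [MeasurableSpace Ω] {P : Measure Ω} [IsProbabilityMeasure P]
    {ε : ℕ → Ω → ℤˣ} (hε : ∀ p, Measurable (ε p)) (hind : iIndepFun ε P) (g : ℕ → ℤˣ)
    {w : ℕ → ℕ → ℝ} (hw : ∀ i n, |w i n| ≤ 1) :
    ∀ᵐ ω ∂P, ∀ i : ℕ, ∀ f : ℕ → ℤˣ, MultS f →
      CritC (fun p => min (P.real {ω | ε p ω = 1}) (P.real {ω | ε p ω = -1})) f
        (fun p => g p * ε p ω) → ChowlaW (w i) f := by
  have hm : ∀ p, Measurable fun u : ℤˣ => g p * u := fun p => measurable_of_countable _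
  have hε' : ∀ p, Measurable (fun ω => g p * ε p ω) := fun p => (hm p).comp (hε p)
  have hind' : iIndepFun (fun p ω => g p * ε p ω) P := hind.comp (fun p u => g p * u) hm
  have h1 := vanW_indep hε' hind' hw
  have hτ : (fun p => min (P.real {ω | g p * ε p ω = 1}) (P.real {ω | g p * ε p ω = -1})) =
      fun p => min (P.real {ω | ε p ω = 1}) (P.real {ω | ε p ω = -1}) := by
    funext p
    rcases Int.units_eq_one_or (g p) with h | h
    · rw [h]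
      simp only [one_mul]
    · rw [h]
      have e1 : {ω | -1 * ε p ω = 1} = {ω | ε p ω = -1} := by
        ext ω
        simp only [Set.mem_ofPred_eq]
        rcases Int.units_eq_one_or (ε p ω) with h' | h' <;> rw [h'] <;> decide
      have e2 : {ω | -1 * ε p ω = -1} = {ω | ε p ω = 1} := by
        ext ω
        simp only [Set.mem_ofPred_eq]
        rcases Int.units_eq_one_or (ε p ω) with h' | h' <;> rw [h'] <;> decide
      rw [e1, e2, min_comm]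
  rw [hτ] at h1
  exact h1

lemma chowlaW_scale {w : ℕ → ℝ} {C : ℝ} {f : ℕ → ℤˣ}
    (h : ChowlaW (fun n => w n / (|C| + 1)) f) : ChowlaW w f := by
  intro H hne
  have hC : (0:ℝ) < |C| + 1 := by positivity
  have h1 := (h H hne).const_mul (|C| + 1)
  rw [mul_zero] at h1
  refine h1.congr fun N => ?_
  rw [← mul_div_assoc, Finset.mul_sum]
  congr 1
  refine Finset.sum_congr rfl fun n _ => ?_
  field_simp

/-- the main theorem with countably many bounded weights -/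
theorem mainW {Ω : Type*} [MeasurableSpace Ω] {P : Measure Ω} [IsProbabilityMeasure P]
    {ε : ℕ → Ω → ℤˣ} (hε : ∀ p, Measurable (ε p)) (hind : iIndepFun ε P) (g : ℕ → ℕ → ℤˣ)
    {w : ℕ → ℕ → ℝ} (hw : ∀ j, ∃ C : ℝ, ∀ n, |w j n| ≤ C) :
    ∀ᵐ ω ∂P, ∀ i : ℕ, ∀ f : ℕ → ℤˣ, MultS f →
      CritC (fun p => min (P.real {ω | ε p ω = 1}) (P.real {ω | ε p ω = -1})) f
        (fun p => g i p * ε p ω) → ∀ j : ℕ, ChowlaW (w j) f := by
  choose C hC using hw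
  have hw' : ∀ j n, |w j n / (|C j| + 1)| ≤ 1 := by
    intro j n
    have h0 : (0:ℝ) < |C j| + 1 := by positivity
    rw [abs_div, abs_of_pos h0, div_le_one h0]
    have h1 := hC j n
    have h2 := le_abs_self (C j)
    linarith
  have h2 := ae_all_iff.mpr fun i => vanW_twist hε hind (g i)
    (w := fun j n => w j n / (|C j| + 1)) hw'
  filter_upwards [h2] with ω h i f hf hc j
  exact chowlaW_scale (C := C j) (h i j f hf hc)

/-- the slow class: window mass bounded below, countably many bounded weights -/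
theorem ces_slow_ws {Ω : Type*} [MeasurableSpace Ω] {P : Measure Ω} [IsProbabilityMeasure P]
    {ε : ℕ → Ω → ℤˣ} (hε : ∀ p, Measurable (ε p)) (hind : iIndepFun ε P) (g : ℕ → ℕ → ℤˣ)
    {w : ℕ → ℕ → ℝ} (hw : ∀ j, ∃ C : ℝ, ∀ n, |w j n| ≤ C)
    (hk : ∃ k : ℕ, ∃ c : ℝ, 0 < c ∧ ∀ᶠ N : ℕ in atTop,
        c ≤ ∑ p ∈ (Finset.Icc 1 N).filter (fun p : ℕ => p.Prime ∧ N < p ^ k),
          min (P.real {ω | ε p ω = 1}) (P.real {ω | ε p ω = -1}) / (p : ℝ)) :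
    ∀ᵐ ω ∂P, ∀ i : ℕ, ∀ f : ℕ → ℤˣ, MultS f →
      Tendsto (fun N : ℕ => ∑ p ∈ (Finset.Icc 1 N).filter
        (fun p : ℕ => p.Prime ∧ N < p ^ 2 ∧ f p ≠ g i p * ε p ω), (1 : ℝ) / p) atTop (𝓝 0) →
      ∀ j : ℕ, ∀ H : Finset ℕ, H.Nonempty →
        Tendsto (fun N : ℕ => (∑ n ∈ Finset.Icc 1 N, w j n * ∏ h ∈ H, ((f (n + h) : ℤ) : ℝ)) /
          (N : ℝ)) atTop (𝓝 0) := by
  obtain ⟨k, c, hc, hk⟩ := hk
  filter_upwards [mainW (P := P) hε hind g hw] with ω hω i f hf hslow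
  exact hω i f hf (crit_of_slowC (fun p => le_min measureReal_nonneg measureReal_nonneg) hc hk hslow)

/-- the slow class: biases bounded below, countably many bounded weights -/
theorem ces_slow_bdd_ws {Ω : Type*} [MeasurableSpace Ω] {P : Measure Ω} [IsProbabilityMeasure P]
    {ε : ℕ → Ω → ℤˣ} (hε : ∀ p, Measurable (ε p)) (hind : iIndepFun ε P) (g : ℕ → ℕ → ℤˣ)
    {w : ℕ → ℕ → ℝ} (hw : ∀ j, ∃ C : ℝ, ∀ n, |w j n| ≤ C)
    {δ : ℝ} (hδ : 0 < δ)
    (hb : ∀ p : ℕ, p.Prime → δ ≤ P.real {ω | ε p ω = 1} ∧ δ ≤ P.real {ω | ε p ω = -1}) :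
    ∀ᵐ ω ∂P, ∀ i : ℕ, ∀ f : ℕ → ℤˣ, MultS f →
      Tendsto (fun N : ℕ => ∑ p ∈ (Finset.Icc 1 N).filter
        (fun p : ℕ => p.Prime ∧ N < p ^ 2 ∧ f p ≠ g i p * ε p ω), (1 : ℝ) / p) atTop (𝓝 0) →
      ∀ j : ℕ, ∀ H : Finset ℕ, H.Nonempty →
        Tendsto (fun N : ℕ => (∑ n ∈ Finset.Icc 1 N, w j n * ∏ h ∈ H, ((f (n + h) : ℤ) : ℝ)) /
          (N : ℝ)) atTop (𝓝 0) :=
  ces_slow_ws hε hind g hw (slow_of_bdd
    (m := fun p => min (P.real {ω | ε p ω = 1}) (P.real {ω | ε p ω = -1})) hδ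
    (fun p hp => le_min (hb p hp).1 (hb p hp).2))

/-- one bounded weight -/
theorem ces_slow_w {Ω : Type*} [MeasurableSpace Ω] {P : Measure Ω} [IsProbabilityMeasure P]
    {ε : ℕ → Ω → ℤˣ} (hε : ∀ p, Measurable (ε p)) (hind : iIndepFun ε P) (g : ℕ → ℕ → ℤˣ)
    {w : ℕ → ℝ} {C : ℝ} (hw : ∀ n, |w n| ≤ C)
    (hk : ∃ k : ℕ, ∃ c : ℝ, 0 < c ∧ ∀ᶠ N : ℕ in atTop,
        c ≤ ∑ p ∈ (Finset.Icc 1 N).filter (fun p : ℕ => p.Prime ∧ N < p ^ k),
          min (P.real {ω | ε p ω = 1}) (P.real {ω | ε p ω = -1}) / (p : ℝ)) :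
    ∀ᵐ ω ∂P, ∀ i : ℕ, ∀ f : ℕ → ℤˣ, MultS f →
      Tendsto (fun N : ℕ => ∑ p ∈ (Finset.Icc 1 N).filter
        (fun p : ℕ => p.Prime ∧ N < p ^ 2 ∧ f p ≠ g i p * ε p ω), (1 : ℝ) / p) atTop (𝓝 0) →
      ∀ H : Finset ℕ, H.Nonempty →
        Tendsto (fun N : ℕ => (∑ n ∈ Finset.Icc 1 N, w n * ∏ h ∈ H, ((f (n + h) : ℤ) : ℝ)) /
          (N : ℝ)) atTop (𝓝 0) := by
  filter_upwards [ces_slow_ws (P := P) hε hind g (w := fun _ => w) (fun _ => ⟨C, hw⟩) hk]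
    with ω h i f hf hs
  exact h i f hf hs 0

/-- one bounded weight, biases bounded below -/
theorem ces_slow_bdd_w {Ω : Type*} [MeasurableSpace Ω] {P : Measure Ω} [IsProbabilityMeasure P]
    {ε : ℕ → Ω → ℤˣ} (hε : ∀ p, Measurable (ε p)) (hind : iIndepFun ε P) (g : ℕ → ℕ → ℤˣ)
    {w : ℕ → ℝ} {C : ℝ} (hw : ∀ n, |w n| ≤ C)
    {δ : ℝ} (hδ : 0 < δ)
    (hb : ∀ p : ℕ, p.Prime → δ ≤ P.real {ω | ε p ω = 1} ∧ δ ≤ P.real {ω | ε p ω = -1}) :
    ∀ᵐ ω ∂P, ∀ i : ℕ, ∀ f : ℕ → ℤˣ, MultS f →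
      Tendsto (fun N : ℕ => ∑ p ∈ (Finset.Icc 1 N).filter
        (fun p : ℕ => p.Prime ∧ N < p ^ 2 ∧ f p ≠ g i p * ε p ω), (1 : ℝ) / p) atTop (𝓝 0) →
      ∀ H : Finset ℕ, H.Nonempty →
        Tendsto (fun N : ℕ => (∑ n ∈ Finset.Icc 1 N, w n * ∏ h ∈ H, ((f (n + h) : ℤ) : ℝ)) /
          (N : ℝ)) atTop (𝓝 0) := by
  filter_upwards [ces_slow_bdd_ws (P := P) hε hind g (w := fun _ => w) (fun _ => ⟨C, hw⟩) hδ hb]
    with ω h i f hf hs
  exact h i f hf hs 0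

end Pool.Agent.Lib.P4a7640N2
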